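import Pool.Agent.H43.AP.Rect

/-!
# From dense sets of differences to intervals

A set of at least `N / 4` integers in `[0, N)` has `O(log N)` translates which cover `[0, N)`.
-/

namespace Pool.Agent.H43.AP

open Finset

/-- one greedy step -/
private lemma cover_step (D : Finset ℕ) (N : ℕ) (hN : 0 < N) (hD : D ⊆ range N)
    (hd : N ≤ 4 * #D) (U : Finset ℕ) (hU : U ⊆ range N) :
    ∃ s : ℤ, |s| ≤ N ∧ 8 * #(U.filter fun x : ℕ => ∀ d ∈ D, (x : ℤ) ≠ d + s) ≤ 7 * #U := by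
  classical
  set I : Finset ℤ := Finset.Ioo (-(N : ℤ)) N with hI
  have hcardI : #I + 1 = 2 * N := by
    rw [hI, Int.card_Ioo]
    omega
  have hne : I.Nonempty := ⟨0, by rw [hI, Finset.mem_Ioo]; omega⟩
  -- double counting
  have hcount : #D * #U ≤ ∑ s ∈ I, #(U.filter fun x : ℕ => ∃ d ∈ D, (x : ℤ) = d + s) := by
    have h1 : ∑ s ∈ I, #(U.filter fun x : ℕ => ∃ d ∈ D, (x : ℤ) = d + s) =
        ∑ x ∈ U, #{s ∈ I | ∃ d ∈ D, (x : ℤ) = d + s} := by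
      simp only [card_filter]
      exact sum_comm
    rw [h1]
    have h2 : ∀ x ∈ U, #D ≤ #{s ∈ I | ∃ d ∈ D, (x : ℤ) = d + s} := by
      intro x hx
      have hxN := mem_range.mp (hU hx)
      apply card_le_card_of_injOn (fun d : ℕ => (x : ℤ) - d)
      · intro d hd'
        rw [mem_coe] at hd'
        have hdN := mem_range.mp (hD hd')
        rw [mem_coe, mem_filter, hI, Finset.mem_Ioo]
        beta_reduce
        refine ⟨⟨by omega, by omega⟩, d, hd', by ring⟩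
      · intro d _ d' _ h
        have h3 : (x : ℤ) - d = x - d' := h
        omega
    calc #D * #U = ∑ _x ∈ U, #D := by rw [sum_const, smul_eq_mul, mul_comm]
      _ ≤ _ := sum_le_sum h2
  obtain ⟨s, hs, hcov⟩ : ∃ s ∈ I, #U ≤ 8 * #(U.filter fun x : ℕ => ∃ d ∈ D, (x : ℤ) = d + s) := by
    by_contra hcon
    push Not at hcon
    have h1 : ∑ s ∈ I, 8 * #(U.filter fun x : ℕ => ∃ d ∈ D, (x : ℤ) = d + s) < ∑ _s ∈ I, #U :=
      sum_lt_sum_of_nonempty hne hcon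
    rw [← mul_sum, sum_const, smul_eq_mul] at h1
    have h2 : #I * #U ≤ 2 * N * #U := Nat.mul_le_mul_right _ (by omega)
    have h3 : 2 * N * #U ≤ 8 * #D * #U := Nat.mul_le_mul_right _ (by omega)
    have h4 : 8 * #D * #U = 8 * (#D * #U) := by ring
    omega
  rw [hI, Finset.mem_Ioo] at hs
  refine ⟨s, abs_le.mpr ⟨by omega, by omega⟩, ?_⟩
  have h1 := card_filter_add_card_filter_not (s := U) (fun x : ℕ => ∃ d ∈ D, (x : ℤ) = d + s)
  have h2 : (U.filter fun x : ℕ => ¬ ∃ d ∈ D, (x : ℤ) = d + s) =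
      U.filter fun x : ℕ => ∀ d ∈ D, (x : ℤ) ≠ d + s := by
    apply filter_congr
    intro x _
    push Not
    rfl
  rw [h2] at h1
  omega

/-- the greedy algorithm -/
private lemma cover_iter (D : Finset ℕ) (N : ℕ) (hN : 0 < N) (hD : D ⊆ range N)
    (hd : N ≤ 4 * #D) (t : ℕ) :
    ∃ S : Finset ℤ, #S ≤ t ∧ (∀ s ∈ S, |s| ≤ N) ∧
      8 ^ t * #((range N).filter fun x : ℕ => ∀ s ∈ S, ∀ d ∈ D, (x : ℤ) ≠ d + s) ≤ 7 ^ t * N := by
  classical
  induction t with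
  | zero => exact ⟨∅, by simp, by simp, by simp⟩
  | succ t ih =>
    obtain ⟨S, h1, h2, h3⟩ := ih
    obtain ⟨s, hs, h4⟩ := cover_step D N hN hD hd
      ((range N).filter fun x : ℕ => ∀ s ∈ S, ∀ d ∈ D, (x : ℤ) ≠ d + s) (filter_subset _ _)
    refine ⟨insert s S, (card_insert_le _ _).trans (by omega), ?_, ?_⟩
    · intro s' hs'
      rcases mem_insert.mp hs' with h | h
      · rw [h]
        exact hs
      · exact h2 s' h
    · have h5 : ((range N).filter fun x : ℕ => ∀ s' ∈ insert s S, ∀ d ∈ D, (x : ℤ) ≠ d + s') =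
          ((range N).filter fun x : ℕ => ∀ s ∈ S, ∀ d ∈ D, (x : ℤ) ≠ d + s).filter fun x : ℕ =>
            ∀ d ∈ D, (x : ℤ) ≠ d + s := by
        ext x
        simp only [mem_filter, mem_insert, forall_eq_or_imp]
        tauto
      rw [h5]
      calc 8 ^ (t + 1) * #(((range N).filter fun x : ℕ => ∀ s ∈ S, ∀ d ∈ D, (x : ℤ) ≠ d + s).filter fun x : ℕ =>
            ∀ d ∈ D, (x : ℤ) ≠ d + s)
          = 8 ^ t * (8 * #(((range N).filter fun x : ℕ => ∀ s ∈ S, ∀ d ∈ D, (x : ℤ) ≠ d + s).filter fun x : ℕ =>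
            ∀ d ∈ D, (x : ℤ) ≠ d + s)) := by ring
        _ ≤ 8 ^ t * (7 * #((range N).filter fun x : ℕ => ∀ s ∈ S, ∀ d ∈ D, (x : ℤ) ≠ d + s)) :=
            Nat.mul_le_mul_left _ h4
        _ = 7 * (8 ^ t * #((range N).filter fun x : ℕ => ∀ s ∈ S, ∀ d ∈ D, (x : ℤ) ≠ d + s)) := by ring
        _ ≤ 7 * (7 ^ t * N) := Nat.mul_le_mul_left _ h3
        _ = 7 ^ (t + 1) * N := by ring

theorem cover (D : Finset ℕ) (N : ℕ) (hN : 0 < N) (hD : D ⊆ range N) (hd : N ≤ 4 * #D) :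
    ∃ S : Finset ℤ, #S ≤ 6 * (Nat.log 2 N + 1) ∧ (∀ s ∈ S, |s| ≤ N) ∧
      ∀ x < N, ∃ s ∈ S, ∃ d ∈ D, (x : ℤ) = d + s := by
  classical
  obtain ⟨S, h1, h2, h3⟩ := cover_iter D N hN hD hd (6 * (Nat.log 2 N + 1))
  refine ⟨S, h1, h2, ?_⟩
  intro x hx
  by_contra hcon
  push Not at hcon
  have h4 : 1 ≤ #((range N).filter fun x : ℕ => ∀ s ∈ S, ∀ d ∈ D, (x : ℤ) ≠ d + s) := by
    apply card_pos.mpr
    exact ⟨x, mem_filter.mpr ⟨mem_range.mpr hx, hcon⟩⟩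
  obtain ⟨m, hm⟩ : ∃ m, m = Nat.log 2 N + 1 := ⟨_, rfl⟩
  rw [← hm] at h3
  have h5 : N < 2 ^ m := by
    rw [hm]
    exact Nat.lt_pow_succ_log_self (by norm_num) N
  have h6 : 8 ^ (6 * m) ≤ 7 ^ (6 * m) * N := by
    calc 8 ^ (6 * m) = 8 ^ (6 * m) * 1 := (mul_one _).symm
      _ ≤ 8 ^ (6 * m) * #((range N).filter fun x : ℕ => ∀ s ∈ S, ∀ d ∈ D, (x : ℤ) ≠ d + s) :=
          Nat.mul_le_mul_left _ h4
      _ ≤ _ := h3
  have h7 : 7 ^ (6 * m) * N < 7 ^ (6 * m) * 2 ^ m :=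
    Nat.mul_lt_mul_of_pos_left h5 (by positivity)
  have h8 : 7 ^ (6 * m) * 2 ^ m = (7 ^ 6 * 2) ^ m := by rw [mul_pow, ← pow_mul]
  have h9 : 8 ^ (6 * m) = (8 ^ 6) ^ m := by rw [← pow_mul]
  have h10 : (7 ^ 6 * 2) ^ m ≤ (8 ^ 6) ^ m := Nat.pow_le_pow_left (by norm_num) m
  omega

theorem interval_conf (k : ℕ) (D : Finset ℕ) (hD : D.Nonempty) (a : ℕ → ℕ) (A : Finset ℕ)
    (hA : ∀ d ∈ D, ∀ j < k, a d + j * d ∈ A) :
    ∃ (a1 : ℕ → ℕ) (A1 : Finset ℕ), (∀ d < #D, ∀ j < k, a1 d + j * d ∈ A1) ∧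
      (∀ d < #D, a1 d ≤ (k + 1) * #D) ∧
      #A1 ≤ 6 * (Nat.log 2 #D + 1) * k * (∑ q ∈ range k, (q + 1) ^ 2) * #A := by
  classical
  have hN : 0 < #D := card_pos.mpr hD
  obtain ⟨D', a', hD', hcard, ha', hsl⟩ := rect_slices D hD a
  obtain ⟨A', hA', hcA'⟩ := hsl (range k) A (fun d hd j hj => hA d hd j (mem_range.mp hj))
  obtain ⟨S, hS, hSN, hcov⟩ := cover D' #D hN hD' hcard
  have hch : ∀ x : ℕ, ∃ p : ℤ × ℕ, x < #D → p.1 ∈ S ∧ p.2 ∈ D' ∧ (x : ℤ) = p.2 + p.1 := by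
    intro x
    by_cases hx : x < #D
    · obtain ⟨s, hs, d, hd, h⟩ := hcov x hx
      exact ⟨(s, d), fun _ => ⟨hs, hd, h⟩⟩
    · exact ⟨(0, 0), fun h => absurd h hx⟩
  choose p hp using hch
  refine ⟨fun x => a' (p x).2 + k * #D,
    (A' ×ˢ (S ×ˢ range k)).image fun z : ℕ × ℤ × ℕ =>
      ((z.1 : ℤ) + k * #D + z.2.2 * z.2.1).toNat, ?_, ?_, ?_⟩
  · intro x hx j hj
    obtain ⟨h1, h2, h3⟩ := hp x hx
    refine mem_image.mpr ⟨(a' (p x).2 + j * (p x).2, (p x).1, j), ?_, ?_⟩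
    · simp only [mem_product, mem_range]
      exact ⟨hA' _ h2 j (mem_range.mpr hj), h1, hj⟩
    · have h4 : (((a' (p x).2 + j * (p x).2 : ℕ) : ℤ) + k * #D + (j : ℤ) * (p x).1) =
          ((a' (p x).2 + k * #D + j * x : ℕ) : ℤ) := by
        push_cast
        rw [h3]
        ring
      show (((a' (p x).2 + j * (p x).2 : ℕ) : ℤ) + k * #D + (j : ℤ) * (p x).1).toNat = _
      rw [h4, Int.toNat_natCast]
  · intro x hx
    obtain ⟨-, h2, -⟩ := hp x hx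
    have h3 := ha' _ h2
    have h4 : (k + 1) * #D = #D + k * #D := by ring
    show a' (p x).2 + k * #D ≤ _
    omega
  · refine card_image_le.trans ?_
    rw [card_product, card_product, card_range]
    calc #A' * (#S * k) ≤ ((∑ q ∈ range k, (q + 1) ^ 2) * #A) * (6 * (Nat.log 2 #D + 1) * k) :=
          Nat.mul_le_mul hcA' (Nat.mul_le_mul_right _ hS)
      _ = _ := by ring

end Pool.Agent.H43.AP
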