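import Pool.Agent.H43.AP.Defs

/-!
# Admissible exponents close to one give the arithmetic Kakeya conjecture
-/

namespace Pool.Agent.H43.AP

open Finset Filter

/-- admissibility is monotone in the set of slopes -/
private lemma admissible_mono {Q Q' : Finset ℕ} (hQ : Q ⊆ Q') {u v : ℕ}
    (h : Admissible Q u v) : Admissible Q' u v := by
  obtain ⟨W, hW⟩ := h
  exact ⟨W, fun D a A hA => hW D a A fun d hd j hj => hA d hd j (hQ hj)⟩

theorem q1_of_admissible (h : ∀ t : ℕ, 1 ≤ t → ∃ k, Admissible (range k) (t + 1) t) :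
    ∃ c : ℕ → ℝ, Tendsto c atTop (nhds 0) ∧ ∀ k, 1 ≤ k → ∃ δ > (0 : ℝ), ∀ᶠ N : ℕ in atTop,
      ∀ (a : ℕ → ℕ) (A : Finset ℕ), (∀ d ∈ Icc 1 N, ∀ j < k, a d + j * d ∈ A) →
        δ * (N : ℝ) ^ (1 - c k) ≤ #A := by
  classical
  obtain ⟨T, hT⟩ : ∃ T : ℕ → ℕ, ∀ k, T k =
      Nat.findGreatest (fun t => Admissible (range k) (t + 1) t) k := ⟨_, fun _ => rfl⟩
  have hTlim : Tendsto T atTop atTop := by
    rw [tendsto_atTop]
    intro t
    rcases Nat.eq_zero_or_pos t with h0 | h0
    · rw [h0]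
      exact Eventually.of_forall fun k => Nat.zero_le _
    · obtain ⟨k0, hk0⟩ := h t h0
      filter_upwards [eventually_ge_atTop (max k0 t)] with k hk
      rw [hT]
      apply Nat.le_findGreatest ((le_max_right _ _).trans hk)
      exact admissible_mono (range_subset_range.mpr ((le_max_left _ _).trans hk)) hk0
  refine ⟨fun k => 1 / ((T k : ℝ) + 1), ?_, ?_⟩
  · exact tendsto_one_div_add_atTop_nhds_zero_nat.comp hTlim
  · intro k hk
    rcases Nat.eq_zero_or_pos (T k) with h0 | h0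
    · refine ⟨1, one_pos, ?_⟩
      filter_upwards [eventually_ge_atTop 1] with N hN
      intro a A hA
      have h1 : a 1 + 0 * 1 ∈ A := hA 1 (mem_Icc.mpr ⟨le_rfl, hN⟩) 0 (by omega)
      have h2 : 1 ≤ #A := card_pos.mpr ⟨_, h1⟩
      have h3 : (1 : ℝ) ≤ #A := by exact_mod_cast h2
      have h4 : (1 : ℝ) - 1 / ((T k : ℝ) + 1) = 0 := by
        rw [h0]
        norm_num
      rw [h4, Real.rpow_zero, one_mul]
      exact h3
    · obtain ⟨t, ht⟩ : ∃ t, t = T k := ⟨_, rfl⟩
      rw [← ht] at h0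
      have hadm : Admissible (range k) (t + 1) t := by
        have h1 : Nat.findGreatest (fun t => Admissible (range k) (t + 1) t) k = t := by
          rw [ht, hT]
        exact Nat.findGreatest_of_ne_zero (P := fun t => Admissible (range k) (t + 1) t) h1
          (by omega)
      obtain ⟨W, hW⟩ := hadm
      refine ⟨1 / ((W : ℝ) + 1), by positivity, Eventually.of_forall fun N => ?_⟩
      intro a A hA
      have h1 := hW (Icc 1 N) a A fun d hd j hj => hA d hd j (mem_range.mp hj)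
      rw [Nat.card_Icc, Nat.add_sub_cancel] at h1
      have h2 : (N : ℝ) ^ t ≤ W * (#A : ℝ) ^ (t + 1) := by exact_mod_cast h1
      have hN0 : (0 : ℝ) ≤ N := Nat.cast_nonneg N
      apply le_of_pow_le_pow_left₀ (n := t + 1) (by omega) (Nat.cast_nonneg _)
      have h3 : ((N : ℝ) ^ (1 - 1 / ((T k : ℝ) + 1))) ^ (t + 1) = (N : ℝ) ^ t := by
        rw [← Real.rpow_natCast, ← Real.rpow_mul hN0, ← Real.rpow_natCast (N : ℝ) t, ← ht]
        congr 1
        have h4 : ((t : ℝ) + 1) ≠ 0 := by positivity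
        push_cast
        field_simp
        ring
      show (1 / ((W : ℝ) + 1) * (N : ℝ) ^ (1 - 1 / ((T k : ℝ) + 1))) ^ (t + 1) ≤ _
      rw [mul_pow, h3]
      have hW0 : (0 : ℝ) ≤ W := Nat.cast_nonneg W
      have h5 : 1 / ((W : ℝ) + 1) ≤ 1 := by
        rw [div_le_one (by positivity)]
        linarith
      have h6 : (1 / ((W : ℝ) + 1)) ^ (t + 1) ≤ 1 / ((W : ℝ) + 1) := by
        rw [pow_succ]
        calc (1 / ((W : ℝ) + 1)) ^ t * (1 / ((W : ℝ) + 1)) ≤ 1 * (1 / ((W : ℝ) + 1)) :=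
              mul_le_mul_of_nonneg_right (pow_le_one₀ (by positivity) h5) (by positivity)
          _ = _ := one_mul _
      calc (1 / ((W : ℝ) + 1)) ^ (t + 1) * (N : ℝ) ^ t
          ≤ 1 / ((W : ℝ) + 1) * (W * (#A : ℝ) ^ (t + 1)) :=
            mul_le_mul h6 h2 (by positivity) (by positivity)
        _ = W / ((W : ℝ) + 1) * (#A : ℝ) ^ (t + 1) := by ring
        _ ≤ 1 * (#A : ℝ) ^ (t + 1) := by
            apply mul_le_mul_of_nonneg_right _ (by positivity)
            rw [div_le_one (by positivity)]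
            linarith
        _ = _ := one_mul _

end Pool.Agent.H43.AP
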