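import Pool.Agent.H43.AP.Interval
import Pool.Agent.H43.AP.Cover
import Pool.Agent.H43.AP.Kakeya

/-!
# The question for structured sets gives the question in general
-/

namespace Pool.Agent.H43.AP

open Finset
open scoped Pointwise

/-- The final inequality. -/
lemma real_step (t r : ℕ) (ht : 1 ≤ t) {N M x L : ℕ} (hN : 1 ≤ N) (hx : 1 ≤ x) (hL : 1 ≤ L)
    (hLN : L ≤ 2 * N) (hM : M = N * L ^ r) (hM2 : 2 ≤ M) {c η ε δ C1 : ℝ}
    (hε : ε = 1 / (2 * (t + 1))) (hη : η = ε / (r + 1)) (hcη : c < η) (hδ : 0 < δ)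
    (hC1 : 0 < C1)
    (h : δ * ((M - 1 : ℕ) : ℝ) ^ (1 - c) ≤ C1 * (Nat.log 2 N + 1) * x * L ^ r) :
    (N : ℝ) ^ t ≤ (2 * C1 / δ * (1 + 1 / (ε * Real.log 2)) * 2 ^ r) ^ (t + 1) * (x : ℝ) ^ (t + 1) := by
  have ht' : (0 : ℝ) < t + 1 := by positivity
  have hε0 : 0 < ε := by rw [hε]; positivity
  have hr' : (0 : ℝ) < r + 1 := by positivity
  have hη0 : 0 < η := by rw [hη]; positivity
  have hε1 : ε < 1 := by
    rw [hε, div_lt_one (by positivity)]
    have : (1 : ℝ) ≤ t := by exact_mod_cast ht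
    linarith
  have hηε : η ≤ ε := by
    rw [hη]
    apply div_le_self hε0.le
    have : (0 : ℝ) ≤ r := Nat.cast_nonneg r
    linarith
  have hη1 : η < 1 := lt_of_le_of_lt hηε hε1
  have hNr : (1 : ℝ) ≤ N := by exact_mod_cast hN
  have hN0 : (0 : ℝ) < N := by linarith
  have hLr : (1 : ℝ) ≤ L := by exact_mod_cast hL
  have hxr : (1 : ℝ) ≤ x := by exact_mod_cast hx
  have hMr : (2 : ℝ) ≤ M := by exact_mod_cast hM2
  have hM0 : (0 : ℝ) < M := by linarith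
  have hlog2 : 0 < Real.log 2 := Real.log_pos (by norm_num)
  -- the lower bound
  have e1 : ((M - 1 : ℕ) : ℝ) = (M : ℝ) - 1 := by
    rw [Nat.cast_sub (by omega)]; simp
  have e2 : (1 : ℝ) ≤ (M : ℝ) - 1 := by linarith
  have h1 : (M : ℝ) ^ (1 - η) / 2 ≤ ((M - 1 : ℕ) : ℝ) ^ (1 - c) := by
    rw [e1]
    have h2 : ((M : ℝ) - 1) ^ (1 - η) ≤ ((M : ℝ) - 1) ^ (1 - c) :=
      Real.rpow_le_rpow_of_exponent_le e2 (by linarith)
    have h3 : ((M : ℝ) / 2) ^ (1 - η) ≤ ((M : ℝ) - 1) ^ (1 - η) :=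
      Real.rpow_le_rpow (by positivity) (by linarith) (by linarith)
    have h4 : (M : ℝ) ^ (1 - η) / 2 ≤ ((M : ℝ) / 2) ^ (1 - η) := by
      rw [Real.div_rpow hM0.le (by norm_num)]
      apply div_le_div_of_nonneg_left (by positivity) (by positivity)
      calc (2 : ℝ) ^ (1 - η) ≤ 2 ^ (1 : ℝ) :=
            Real.rpow_le_rpow_of_exponent_le (by norm_num) (by linarith)
        _ = 2 := Real.rpow_one 2
    linarith
  have h2 : δ * ((M : ℝ) ^ (1 - η) / 2) ≤ C1 * (Nat.log 2 N + 1) * x * L ^ r :=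
    (mul_le_mul_of_nonneg_left h1 hδ.le).trans h
  have h3 : (M : ℝ) ^ (1 - η) * (M : ℝ) ^ η = N * L ^ r := by
    rw [← Real.rpow_add hM0, sub_add_cancel, Real.rpow_one, hM]
    push_cast
    ring
  have hLr0 : (0 : ℝ) < (L : ℝ) ^ r := by positivity
  have h4 : (N : ℝ) ≤ 2 * C1 / δ * (Nat.log 2 N + 1) * x * (M : ℝ) ^ η := by
    have h5 : δ * (N * L ^ r) ≤ 2 * C1 * (Nat.log 2 N + 1) * x * (M : ℝ) ^ η * L ^ r := by
      rw [← h3]
      have h6 := mul_le_mul_of_nonneg_right h2 (Real.rpow_nonneg hM0.le η)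
      nlinarith [h6]
    have h6 : δ * N ≤ 2 * C1 * (Nat.log 2 N + 1) * x * (M : ℝ) ^ η := by
      apply le_of_mul_le_mul_right _ hLr0
      linarith
    calc (N : ℝ) = (δ * N) / δ := by field_simp
      _ ≤ (2 * C1 * (Nat.log 2 N + 1) * x * (M : ℝ) ^ η) / δ :=
          div_le_div_of_nonneg_right h6 hδ.le
      _ = _ := by ring
  have h5 : (M : ℝ) ^ η ≤ 2 ^ r * (N : ℝ) ^ ε := by
    have h6 : (M : ℝ) ≤ 2 ^ r * (N : ℝ) ^ (r + 1) := by
      rw [hM]
      push_cast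
      calc (N : ℝ) * L ^ r ≤ N * (2 * N) ^ r := by
            gcongr
            exact_mod_cast hLN
        _ = _ := by rw [mul_pow]; ring
    calc (M : ℝ) ^ η ≤ (2 ^ r * (N : ℝ) ^ (r + 1)) ^ η :=
          Real.rpow_le_rpow hM0.le h6 hη0.le
      _ = ((2 : ℝ) ^ r) ^ η * ((N : ℝ) ^ (r + 1)) ^ η :=
          Real.mul_rpow (by positivity) (by positivity)
      _ ≤ 2 ^ r * (N : ℝ) ^ ε := by
          apply mul_le_mul _ _ (by positivity) (by positivity)
          · calc ((2 : ℝ) ^ r) ^ η ≤ ((2 : ℝ) ^ r) ^ (1 : ℝ) :=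
                  Real.rpow_le_rpow_of_exponent_le (one_le_pow₀ (by norm_num)) hη1.le
              _ = 2 ^ r := Real.rpow_one _
          · rw [← Real.rpow_natCast, ← Real.rpow_mul hN0.le]
            apply le_of_eq
            congr 1
            rw [hη]
            push_cast
            field_simp
  have h6 : (Nat.log 2 N + 1 : ℝ) ≤ (1 + 1 / (ε * Real.log 2)) * (N : ℝ) ^ ε := by
    have h7 : (Nat.log 2 N : ℝ) ≤ Real.log N / Real.log 2 := by
      have := Real.natLog_le_logb N 2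
      rwa [Real.logb] at this
    have h8 : Real.log N ≤ (N : ℝ) ^ ε / ε := Real.log_le_rpow_div hN0.le hε0
    have h9 : (1 : ℝ) ≤ (N : ℝ) ^ ε := Real.one_le_rpow hNr hε0.le
    have h10 : Real.log N / Real.log 2 ≤ (N : ℝ) ^ ε / ε / Real.log 2 :=
      div_le_div_of_nonneg_right h8 hlog2.le
    have h11 : (1 + 1 / (ε * Real.log 2)) * (N : ℝ) ^ ε =
        (N : ℝ) ^ ε + (N : ℝ) ^ ε / ε / Real.log 2 := by
      field_simp
    rw [h11]
    linarith
  set C3 : ℝ := 2 * C1 / δ * (1 + 1 / (ε * Real.log 2)) * 2 ^ r with hC3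
  have hC30 : 0 ≤ C3 := by positivity
  have h7 : (N : ℝ) ≤ C3 * x * (N : ℝ) ^ (2 * ε) := by
    calc (N : ℝ) ≤ 2 * C1 / δ * (Nat.log 2 N + 1) * x * (M : ℝ) ^ η := h4
      _ ≤ 2 * C1 / δ * ((1 + 1 / (ε * Real.log 2)) * (N : ℝ) ^ ε) * x * (2 ^ r * (N : ℝ) ^ ε) := by
          gcongr
      _ = C3 * x * ((N : ℝ) ^ ε * (N : ℝ) ^ ε) := by rw [hC3]; ring
      _ = _ := by rw [← Real.rpow_add hN0]; congr 2; ring
  have h8 : (N : ℝ) ^ (t + 1) ≤ (C3 * x) ^ (t + 1) * N := by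
    calc (N : ℝ) ^ (t + 1) ≤ (C3 * x * (N : ℝ) ^ (2 * ε)) ^ (t + 1) :=
          pow_le_pow_left₀ hN0.le h7 _
      _ = (C3 * x) ^ (t + 1) * ((N : ℝ) ^ (2 * ε)) ^ (t + 1) := by rw [mul_pow]
      _ = (C3 * x) ^ (t + 1) * N := by
          congr 1
          rw [← Real.rpow_natCast, ← Real.rpow_mul hN0.le]
          have : 2 * ε * ((t + 1 : ℕ) : ℝ) = 1 := by
            rw [hε]
            push_cast
            field_simp
          rw [this, Real.rpow_one]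
  rw [pow_succ] at h8
  have h9 := le_of_mul_le_mul_right h8 hN0
  rwa [mul_pow] at h9

/-- A restricted model closed under products gives the general statement. -/
theorem admissible_of_model (r : ℕ) (hr : 0 < r) (P : ℕ → ℕ → (ℕ → ℕ) → Finset ℕ → Prop)
    (hprod : ∀ k N L x : ℕ, r ≤ k → 0 < N → 0 < L → N ≤ x * L → ∀ (a : ℕ → ℕ) (A : Finset ℕ),
      (∀ d < N, ∀ j < k, a d + j * d ∈ A) → (∀ d < N, a d ≤ (k + 1) * N) →
      ∃ (a1 : ℕ → ℕ) (A1 : Finset ℕ), (∀ d < N * L ^ r, ∀ j < k, a1 d + j * d ∈ A1) ∧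
        #A1 ≤ k * ((#A + (2 * k + 1) * x) * L ^ r) + x * L ^ r ∧
        ∀ M < N * L ^ r, P k M a1 A1)
    (h : ∃ c : ℕ → ℝ, Filter.Tendsto c Filter.atTop (nhds 0) ∧ ∀ k, 1 ≤ k → ∃ δ > (0 : ℝ),
      ∀ᶠ N : ℕ in Filter.atTop, ∀ (a : ℕ → ℕ) (A : Finset ℕ),
        (∀ d ∈ Icc 1 N, ∀ j < k, a d + j * d ∈ A) → P k N a A →
        δ * (N : ℝ) ^ (1 - c k) ≤ #A)
    (t : ℕ) (ht : 1 ≤ t) : ∃ k, Admissible (range k) (t + 1) t := by
  classical
  obtain ⟨c, hc0, hc⟩ := h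
  obtain ⟨ε, hε⟩ : ∃ ε : ℝ, ε = 1 / (2 * (t + 1)) := ⟨_, rfl⟩
  obtain ⟨η, hη⟩ : ∃ η : ℝ, η = ε / (r + 1) := ⟨_, rfl⟩
  have hε0 : 0 < ε := by rw [hε]; positivity
  have hη0 : 0 < η := by rw [hη]; positivity
  obtain ⟨k, hk1, hk2, hk3⟩ : ∃ k, 1 ≤ k ∧ r ≤ k ∧ c k < η := by
    have h1 := hc0.eventually_lt_const hη0
    obtain ⟨k, hk⟩ := (h1.and (Filter.eventually_ge_atTop (r + 1))).exists
    exact ⟨k, by omega, by omega, hk.1⟩
  obtain ⟨δ, hδ, hN⟩ := hc k hk1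
  obtain ⟨N0, hN0⟩ := Filter.eventually_atTop.mp hN
  obtain ⟨cq, hcq⟩ : ∃ cq : ℕ, cq = ∑ q ∈ range k, (q + 1) ^ 2 := ⟨_, rfl⟩
  obtain ⟨C1, hC1⟩ : ∃ C1 : ℕ, C1 = k * (6 * k * cq + (2 * k + 1)) + 1 := ⟨_, rfl⟩
  obtain ⟨C3, hC3⟩ : ∃ C3 : ℝ,
      C3 = (2 * C1 / δ * (1 + 1 / (ε * Real.log 2)) * 2 ^ r) ^ (t + 1) := ⟨_, rfl⟩
  refine ⟨k, N0 ^ t + ⌈C3⌉₊ + 1, ?_⟩
  intro D a A hA
  rcases D.eq_empty_or_nonempty with h0 | hD
  · rw [h0, card_empty, zero_pow (by omega)]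
    exact Nat.zero_le _
  have hN1 : 1 ≤ #D := card_pos.mpr hD
  have hA1 : 1 ≤ #A := by
    obtain ⟨d, hd⟩ := hD
    exact card_pos.mpr ⟨_, hA d hd 0 (mem_range.mpr (by omega))⟩
  have hApow : 1 ≤ #A ^ (t + 1) := Nat.one_le_pow _ _ hA1
  rcases Nat.lt_or_ge #D #A with hDA | hDA
  · calc #D ^ t ≤ #D ^ (t + 1) := Nat.pow_le_pow_right hN1 (Nat.le_succ _)
      _ ≤ #A ^ (t + 1) := Nat.pow_le_pow_left hDA.le _
      _ ≤ (N0 ^ t + ⌈C3⌉₊ + 1) * #A ^ (t + 1) := Nat.le_mul_of_pos_left _ (Nat.succ_pos _)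
  obtain ⟨a1, A1, h1, h2, h3⟩ := interval_conf k D hD a A
    (fun d hd j hj => hA d hd j (mem_range.mpr hj))
  set N := #D with hN'
  set x := #A with hx
  obtain ⟨L, hL⟩ : ∃ L : ℕ, L = N / x + 1 := ⟨_, rfl⟩
  have hL1 : 1 ≤ L := by rw [hL]; exact Nat.succ_pos _
  have hNL : N ≤ x * L := by
    rw [hL]
    exact (Nat.lt_mul_div_succ N hA1).le
  have hL2 : 2 ≤ L := by
    rw [hL]
    exact Nat.succ_le_succ (Nat.div_pos hDA hA1)
  have hLN : L ≤ 2 * N := by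
    rw [hL]
    calc N / x + 1 ≤ N + N := Nat.add_le_add (Nat.div_le_self N x) hN1
      _ = 2 * N := by ring
  obtain ⟨a2, A2, h4, h5, h6⟩ := hprod k N L x hk2 hN1 hL1 hNL a1 A1 h1 h2
  obtain ⟨M, hM⟩ : ∃ M : ℕ, M = N * L ^ r := ⟨_, rfl⟩
  have hM2 : 2 ≤ M := by
    have e1 : 2 ^ 1 ≤ L ^ r := (Nat.pow_le_pow_left hL2 1).trans
      (Nat.pow_le_pow_right (by omega) hr)
    calc 2 ≤ L ^ r := by simpa using e1
      _ ≤ N * L ^ r := Nat.le_mul_of_pos_left _ hN1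
      _ = M := hM.symm
  have hNM : N ≤ M := by
    rw [hM]
    exact Nat.le_mul_of_pos_right _ (Nat.pow_pos hL1)
  rcases Nat.lt_or_ge (M - 1) N0 with hMN | hMN
  · calc N ^ t ≤ N0 ^ t := Nat.pow_le_pow_left (by omega) _
      _ ≤ (N0 ^ t + ⌈C3⌉₊ + 1) * 1 := by omega
      _ ≤ _ := Nat.mul_le_mul_left _ hApow
  have hsub : Icc 1 (M - 1) ⊆ range (N * L ^ r) := by
    intro d hd
    rw [mem_Icc] at hd
    rw [mem_range, ← hM]
    omega
  have h7 := hN0 (M - 1) hMN a2 A2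
    (fun d hd j hj => h4 d (mem_range.mp (hsub hd)) j hj) (h6 _ (by omega))
  have h8 : #A2 ≤ C1 * (Nat.log 2 N + 1) * x * L ^ r := by
    calc #A2 ≤ k * ((#A1 + (2 * k + 1) * x) * L ^ r) + x * L ^ r := h5
      _ ≤ k * ((6 * (Nat.log 2 N + 1) * k * cq * x +
            (2 * k + 1) * ((Nat.log 2 N + 1) * x)) * L ^ r) + (Nat.log 2 N + 1) * x * L ^ r := by
          have e1 : x ≤ (Nat.log 2 N + 1) * x := Nat.le_mul_of_pos_left _ (Nat.succ_pos _)
          rw [hcq]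
          gcongr
      _ = _ := by rw [hC1]; ring
  have h9 : δ * ((M - 1 : ℕ) : ℝ) ^ (1 - c k) ≤
      (C1 : ℝ) * (Nat.log 2 N + 1) * x * L ^ r := by
    refine h7.trans ?_
    exact_mod_cast h8
  have hC10 : (0 : ℝ) < C1 := by
    rw [hC1]
    positivity
  have h10 := real_step t r ht hN1 hA1 hL1 hLN hM hM2 hε hη hk3 hδ hC10 h9
  rw [← hC3] at h10
  have h11 : (N : ℝ) ^ t ≤ ((N0 ^ t + ⌈C3⌉₊ + 1 : ℕ) : ℝ) * (x : ℝ) ^ (t + 1) := by
    refine h10.trans (mul_le_mul_of_nonneg_right ?_ (by positivity))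
    have e1 := Nat.le_ceil C3
    push_cast
    have e2 : (0 : ℝ) ≤ (N0 : ℝ) ^ t := by positivity
    linarith
  exact_mod_cast h11

theorem admissible_of_structured (r : ℕ) (hr : 0 < r) (h : GreenStructured r) (t : ℕ)
    (ht : 1 ≤ t) : ∃ k, Admissible (range k) (t + 1) t := by
  refine admissible_of_model r hr
    (fun k N a A => Structured (range r) (2 ^ (r + 1) + (2 * k + 1)) (Icc 1 N) a A) ?_ ?_ t ht
  · intro k N L x hrk hN hL hNL a A hA ha
    obtain ⟨a1, A1, h1, h2, h3⟩ := interval_product r k N L x hr hrk hN hL hNL a A hA ha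
    refine ⟨a1, A1, h1, h2, fun M hM => h3 _ ?_⟩
    intro d hd
    rw [mem_Icc] at hd
    rw [mem_range]
    omega
  · obtain ⟨c, hc0, hc⟩ := h
    exact ⟨c, hc0, fun k hk => hc k hk _⟩

/-- Periodic first terms. -/
lemma short_product (k N L x : ℕ) (hN : 0 < N) (hNL : N ≤ x * L)
    (a : ℕ → ℕ) (A : Finset ℕ) (hA : ∀ d < N, ∀ j < k, a d + j * d ∈ A)
    (ha : ∀ d < N, a d ≤ (k + 1) * N) :
    ∃ (a1 : ℕ → ℕ) (A1 : Finset ℕ), (∀ d < N * L ^ 1, ∀ j < k, a1 d + j * d ∈ A1) ∧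
      #A1 ≤ k * ((#A + (2 * k + 1) * x) * L ^ 1) + x * L ^ 1 ∧
      ∀ M < N * L ^ 1, ∀ d ∈ Icc 1 M, a1 d ≤ (k + 1) * #A1 := by
  classical
  refine ⟨fun d => a (d % N), ((range k).biUnion fun j => enc (j * N) A (range L)) ∪ range N,
    ?_, ?_, ?_⟩
  · intro d hd j hj
    rw [pow_one] at hd
    have e1 : d % N < N := Nat.mod_lt _ hN
    have e2 : d / N < L := (Nat.div_lt_iff_lt_mul hN).mpr (by rwa [mul_comm] at hd)
    refine mem_union_left _ (mem_biUnion.mpr ⟨j, mem_range.mpr hj, ?_⟩)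
    rw [enc, mem_image]
    refine ⟨(a (d % N) + j * (d % N), d / N),
      mem_product.mpr ⟨hA _ e1 j hj, mem_range.mpr e2⟩, ?_⟩
    have e4 : d % N + N * (d / N) = d := Nat.mod_add_div d N
    calc a (d % N) + j * (d % N) + j * N * (d / N)
        = a (d % N) + j * (d % N + N * (d / N)) := by ring
      _ = _ := by rw [e4]
  · have h1 : #((range k).biUnion fun j => enc (j * N) A (range L)) ≤ k * (#A * L) := by
      have h3 := card_biUnion_le_card_mul (range k) (fun j => enc (j * N) A (range L)) (#A * L) ?_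
      · rwa [card_range] at h3
      intro j _
      refine card_image_le.trans ?_
      rw [card_product, card_range]
    calc #(((range k).biUnion fun j => enc (j * N) A (range L)) ∪ range N)
        ≤ #((range k).biUnion fun j => enc (j * N) A (range L)) + #(range N) := card_union_le _ _
      _ ≤ k * (#A * L) + x * L := by
          rw [card_range]
          exact Nat.add_le_add h1 hNL
      _ ≤ k * ((#A + (2 * k + 1) * x) * L ^ 1) + x * L ^ 1 := by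
          rw [pow_one]
          gcongr
          exact Nat.le_add_right _ _
  · intro M hM d hd
    rw [pow_one] at hM
    have e1 : d % N < N := Nat.mod_lt _ hN
    have h6 : N ≤ #(((range k).biUnion fun j => enc (j * N) A (range L)) ∪ range N) := by
      have := card_le_card (subset_union_right
        (s₁ := (range k).biUnion fun j => enc (j * N) A (range L)) (s₂ := range N))
      rwa [card_range] at this
    exact (ha _ e1).trans (Nat.mul_le_mul_left _ h6)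

theorem admissible_of_short (h : GreenShort) (t : ℕ) (ht : 1 ≤ t) :
    ∃ k, Admissible (range k) (t + 1) t := by
  refine admissible_of_model 1 one_pos
    (fun k N a A => ∀ d ∈ Icc 1 N, a d ≤ (k + 1) * #A) ?_ ?_ t ht
  · intro k N L x _ hN _ hNL a A hA ha
    exact short_product k N L x hN hNL a A hA ha
  · obtain ⟨c, hc0, hc⟩ := h
    exact ⟨c, hc0, fun k hk => hc k hk _⟩

/-- **Question Q1 and its structured version.** -/
theorem green_structured (r : ℕ) : GreenStructured r ↔ Green := by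
  constructor
  · intro h
    rcases Nat.eq_zero_or_pos r with h0 | h0
    · subst h0
      obtain ⟨c, hc0, hc⟩ := h
      refine ⟨c, hc0, fun k hk => ?_⟩
      obtain ⟨δ, hδ, hN⟩ := hc k hk 0
      refine ⟨δ, hδ, hN.mono fun N hN a A hA => hN a A hA ?_⟩
      intro j hj
      exact absurd hj (by simp)
    · exact q1_of_admissible (admissible_of_structured r h0 h)
  · rintro ⟨c, hc0, hc⟩
    refine ⟨c, hc0, fun k hk K => ?_⟩
    obtain ⟨δ, hδ, hN⟩ := hc k hk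
    exact ⟨δ, hδ, hN.mono fun N hN a A hA _ => hN a A hA⟩

/-- **Question Q1 and its version for short first terms.** -/
theorem green_short : GreenShort ↔ Green := by
  constructor
  · intro h
    exact q1_of_admissible (admissible_of_short h)
  · rintro ⟨c, hc0, hc⟩
    refine ⟨c, hc0, fun k hk K => ?_⟩
    obtain ⟨δ, hδ, hN⟩ := hc k hk
    exact ⟨δ, hδ, hN.mono fun N hN a A hA _ => hN a A hA⟩

end Pool.Agent.H43.AP
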