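import Pool.Agent.H43.AP.Gamma

/-!
# Cells

`G` is cut into cells `m (x - x_i) ∈ I_c` around a maximal separated set of centres `x_i`; every
fibre of a projection `y + q x`, `q ∈ Q`, meets few cells, each cell has at most `|I_c|` elements,
and the bound for the free slopes is applied to each cell.
-/

namespace Pool.Agent.H43.AP

open Finset
open scoped Pointwise

variable {r : ℕ}

/-- The product of all `n_j - q`. -/
def dd (n : Fin r → ℕ) (Q : Finset ℕ) : ℤ := ∏ q ∈ Q, ∏ j, ((n j : ℤ) - q)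

private lemma dd_ne (n : Fin r → ℕ) (Q : Finset ℕ) (hQ : ∀ q ∈ Q, ∀ j, n j ≠ q) :
    dd n Q ≠ 0 := by
  unfold dd
  refine prod_ne_zero_iff.mpr fun q hq => prod_ne_zero_iff.mpr fun j _ => ?_
  intro h
  exact hQ q hq j (by exact_mod_cast (sub_eq_zero.mp h))

private lemma dd_dvd (n : Fin r → ℕ) (Q : Finset ℕ) {q : ℕ} (hq : q ∈ Q) (j : Fin r) :
    ((n j : ℤ) - q) ∣ dd n Q :=
  (dvd_prod_of_mem (fun j => ((n j : ℤ) - q)) (mem_univ j)).trans
    (dvd_prod_of_mem (fun q : ℕ => ∏ j, ((n j : ℤ) - q)) hq)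

/-- two points in the same fibre are in neighbouring cells -/
private lemma fib_mem (n : Fin r → ℕ) (B : Fin r → Finset ℤ) (j0 : Fin r)
    (hB : ∀ j, (B j).Nonempty) (Q : Finset ℕ) (hQ : ∀ q ∈ Q, ∀ j, n j ≠ q) (c : ℕ)
    (hc : (dd n Q).natAbs ≤ c) {g g' : ℤ × ℤ} (hg : ∀ j, g.2 + (n j : ℤ) * g.1 ∈ B j)
    (hg' : ∀ j, g'.2 + (n j : ℤ) * g'.1 ∈ B j) {q : ℕ} (hq : q ∈ Q)
    (h : g.2 + (q : ℤ) * g.1 = g'.2 + (q : ℤ) * g'.1) :
    dd n Q * (g.1 - g'.1) ∈ II B j0 c := by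
  rw [mem_II]
  intro j
  obtain ⟨e, he⟩ := dd_dvd n Q hq j
  have h1 : ((n j : ℤ) - q) * (g.1 - g'.1) ∈ SS (B j) 1 := by
    have h3 : ((n j : ℤ) - q) * (g.1 - g'.1) =
        (g.2 + (n j : ℤ) * g.1) - (g'.2 + (n j : ℤ) * g'.1) := by
      linear_combination (-1) * h
    rw [h3]
    exact mem_SS_one (hg j) (hg' j)
  have h4 := SS_int (hB j) e h1
  have h5 : dd n Q * (g.1 - g'.1) = e * (((n j : ℤ) - q) * (g.1 - g'.1)) := by
    rw [he]
    ring
  rw [h5]
  refine SS_mono (hB j) ?_ h4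
  rw [mul_one]
  refine le_trans ?_ hc
  rw [he, Int.natAbs_mul]
  have h6 : 0 < ((n j : ℤ) - q).natAbs := by
    rw [Int.natAbs_pos]
    intro h0
    exact hQ q hq j (by exact_mod_cast (sub_eq_zero.mp h0))
  exact Nat.le_mul_of_pos_left _ h6

/-- few separated centres are close to each other -/
private lemma overlap (B : Fin r → Finset ℤ) (j0 : Fin r) (hB : ∀ j, (B j).Nonempty) {K : ℕ}
    (hK : ∀ j, #(B j + B j) ≤ K * #(B j)) (c : ℕ) (hc2 : 2 ≤ c) (m : ℤ) (X : Finset (ℤ × ℤ))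
    (hX : ∀ g ∈ X, ∀ g' ∈ X, g ≠ g' → m * (g.1 - g'.1) ∉ II B j0 c)
    (h3 : ∀ g ∈ X, ∀ g' ∈ X, m * (g.1 - g'.1) ∈ II B j0 (3 * c)) :
    #X ≤ K ^ ((6 * c + 1) * r) := by
  classical
  rcases X.eq_empty_or_nonempty with h0 | ⟨g0, hg0⟩
  · rw [h0, card_empty]
    exact Nat.zero_le _
  have hcov : ∀ j, ∃ F : Finset ℤ, #F ≤ K ^ (2 * (3 * c) + 1) ∧
      ∀ x ∈ SS (B j) (3 * c), ∃ t ∈ F, x - t ∈ SS (B j) 1 :=
    fun j => covering (hB j) (hK j) (3 * c)
  choose F hF ht using hcov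
  have ht' : ∀ j x, ∃ t, x ∈ SS (B j) (3 * c) → t ∈ F j ∧ x - t ∈ SS (B j) 1 := by
    intro j x
    by_cases hx : x ∈ SS (B j) (3 * c)
    · obtain ⟨t, h1, h2⟩ := ht j x hx
      exact ⟨t, fun _ => ⟨h1, h2⟩⟩
    · exact ⟨0, fun h => absurd h hx⟩
  choose t ht2 using ht'
  have h1 : #X ≤ #(Fintype.piFinset F) := by
    apply card_le_card_of_injOn (fun g j => t j (m * (g.1 - g0.1)))
    · intro g hg
      rw [mem_coe] at hg
      rw [mem_coe, Fintype.mem_piFinset]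
      intro j
      exact (ht2 j _ (mem_II.mp (h3 g hg g0 hg0) j)).1
    · intro g hg g' hg' h
      rw [mem_coe] at hg hg'
      by_contra hne
      apply hX g hg g' hg' hne
      rw [mem_II]
      intro j
      have e1 := (ht2 j _ (mem_II.mp (h3 g hg g0 hg0) j)).2
      have e2 := (ht2 j _ (mem_II.mp (h3 g' hg' g0 hg0) j)).2
      have e3 : t j (m * (g.1 - g0.1)) = t j (m * (g'.1 - g0.1)) := congrFun h j
      rw [e3] at e1
      have e4 := SS_sub e1 e2
      have e5 : m * (g.1 - g'.1) = m * (g.1 - g0.1) - t j (m * (g'.1 - g0.1)) -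
          (m * (g'.1 - g0.1) - t j (m * (g'.1 - g0.1))) := by ring
      rw [e5]
      exact SS_mono (hB j) hc2 e4
  refine h1.trans ?_
  rw [Fintype.card_piFinset]
  calc ∏ j, #(F j) ≤ ∏ _j : Fin r, K ^ (2 * (3 * c) + 1) := prod_le_prod' fun j _ => hF j
    _ = K ^ ((6 * c + 1) * r) := by
        rw [prod_const, card_univ, Fintype.card_fin, ← pow_mul]
        congr 1
        ring

theorem cells (n : Fin r → ℕ) (B : Fin r → Finset ℤ) (j0 : Fin r)
    (hB : ∀ j, (B j).Nonempty) {K : ℕ} (hK : ∀ j, #(B j + B j) ≤ K * #(B j))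
    (Q : Finset ℕ) (hQ : ∀ q ∈ Q, ∀ j, n j ≠ q) (c : ℕ) (hc2 : 2 ≤ c)
    (hc : (dd n Q).natAbs ≤ c)
    (G : Finset (ℤ × ℤ)) (hinj : Set.InjOn Prod.fst (G : Set (ℤ × ℤ)))
    (hG : ∀ g ∈ G, ∀ j, g.2 + (n j : ℤ) * g.1 ∈ B j)
    (A : Finset ℤ) (hA : ∀ g ∈ G, ∀ q ∈ Q, g.2 + (q : ℤ) * g.1 ∈ A)
    (u v W : ℕ) (hu : 0 < u) (hvu : v ≤ u)
    (hfree : ∀ G' ⊆ G, ∀ A' : Finset ℤ, (∀ g ∈ G', ∀ q ∈ Q, g.2 + (q : ℤ) * g.1 ∈ A') →
      #G' ^ v ≤ W * #A' ^ u) :
    #G ^ u ≤ W * #(II B j0 c) ^ (u - v) * (#Q * K ^ ((6 * c + 1) * r) * #A) ^ u := by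
  classical
  obtain ⟨m, hm⟩ : ∃ m : ℤ, m = dd n Q := ⟨_, rfl⟩
  have hm0 : m ≠ 0 := by
    rw [hm]
    exact dd_ne n Q hQ
  -- the centres
  obtain ⟨X, hXG, hXsep, hXmax⟩ : ∃ X ⊆ G,
      (∀ g ∈ X, ∀ g' ∈ X, g ≠ g' → m * (g.1 - g'.1) ∉ II B j0 c) ∧
      ∀ g ∈ G, ∃ i ∈ X, m * (g.1 - i.1) ∈ II B j0 c := by
    obtain ⟨X, hX, hmax⟩ := exists_max_image (G.powerset.filter fun X =>
      ∀ g ∈ X, ∀ g' ∈ X, g ≠ g' → m * (g.1 - g'.1) ∉ II B j0 c) card ⟨∅, by simp⟩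
    rw [mem_filter, mem_powerset] at hX
    refine ⟨X, hX.1, hX.2, ?_⟩
    intro g hg
    by_contra hcon
    push Not at hcon
    have h0 : (0 : ℤ) ∈ II B j0 c := mem_II.mpr fun j => zero_mem_SS (hB j) c
    have hgX : g ∉ X := fun h => hcon g h (by rw [sub_self, mul_zero]; exact h0)
    have h1 := hmax (insert g X) (by
      rw [mem_filter, mem_powerset]
      refine ⟨insert_subset hg hX.1, ?_⟩
      intro a ha b hb hab
      rw [mem_insert] at ha hb
      rcases ha with ha | ha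
      · rcases hb with hb | hb
        · exact absurd (ha.trans hb.symm) hab
        · rw [ha]
          exact hcon b hb
      · rcases hb with hb | hb
        · intro h
          apply hcon a ha
          rw [hb, mem_II] at h
          rw [mem_II]
          intro j
          have e : m * (g.1 - a.1) = -(m * (a.1 - g.1)) := by ring
          rw [e]
          exact SS_neg (h j)
        · exact hX.2 a ha b hb hab)
    rw [card_insert_of_notMem hgX] at h1
    omega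
  -- the cells
  obtain ⟨Ce, hCe⟩ : ∃ Ce : ℤ × ℤ → Finset (ℤ × ℤ),
      ∀ i, Ce i = {g ∈ G | m * (g.1 - i.1) ∈ II B j0 c} := ⟨_, fun _ => rfl⟩
  have memCe : ∀ i g, g ∈ Ce i ↔ g ∈ G ∧ m * (g.1 - i.1) ∈ II B j0 c := by
    intro i g
    rw [hCe, mem_filter]
  obtain ⟨Pq, hPq⟩ : ∃ Pq : ℕ → ℤ × ℤ → Finset ℤ,
      ∀ q i, Pq q i = (Ce i).image fun g => g.2 + (q : ℤ) * g.1 := ⟨_, fun _ _ => rfl⟩
  have hcover : #G ≤ ∑ i ∈ X, #(Ce i) := by
    have h1 : G ⊆ X.biUnion Ce := by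
      intro g hg
      obtain ⟨i, hi, h⟩ := hXmax g hg
      exact mem_biUnion.mpr ⟨i, hi, (memCe i g).mpr ⟨hg, h⟩⟩
    exact (card_le_card h1).trans card_biUnion_le
  have hCI : ∀ i, #(Ce i) ≤ #(II B j0 c) := by
    intro i
    apply card_le_card_of_injOn (fun g => m * (g.1 - i.1))
    · intro g hg
      rw [mem_coe, memCe] at hg
      rw [mem_coe]
      exact hg.2
    · intro g hg g' hg' h
      rw [mem_coe, memCe] at hg hg'
      have h1 : g.1 - i.1 = g'.1 - i.1 := mul_left_cancel₀ hm0 h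
      exact hinj (mem_coe.mpr hg.1) (mem_coe.mpr hg'.1) (by linarith)
  have hCA : ∀ i, #(Ce i) ^ u ≤
      W * #(II B j0 c) ^ (u - v) * #(Q.biUnion fun q => Pq q i) ^ u := by
    intro i
    have h1 := hfree (Ce i) (fun g hg => ((memCe i g).mp hg).1) (Q.biUnion fun q => Pq q i) (by
      intro g hg q hq
      refine mem_biUnion.mpr ⟨q, hq, ?_⟩
      rw [hPq]
      exact mem_image_of_mem _ hg)
    calc #(Ce i) ^ u = #(Ce i) ^ (u - v) * #(Ce i) ^ v := by
          rw [← pow_add]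
          congr 1
          omega
      _ ≤ #(II B j0 c) ^ (u - v) * (W * #(Q.biUnion fun q => Pq q i) ^ u) :=
          Nat.mul_le_mul (Nat.pow_le_pow_left (hCI i) _) h1
      _ = _ := by ring
  have hsum : ∑ i ∈ X, #(Q.biUnion fun q => Pq q i) ≤ #Q * K ^ ((6 * c + 1) * r) * #A := by
    have h1 : ∀ q ∈ Q, ∑ i ∈ X, #(Pq q i) ≤ K ^ ((6 * c + 1) * r) * #A := by
      intro q hq
      have h2 : ∀ i ∈ X, #(Pq q i) = #{a ∈ A | a ∈ Pq q i} := by
        intro i _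
        congr 1
        ext a
        rw [mem_filter]
        constructor
        · intro ha
          refine ⟨?_, ha⟩
          rw [hPq] at ha
          obtain ⟨g, hg, rfl⟩ := mem_image.mp ha
          exact hA g ((memCe i g).mp hg).1 q hq
        · exact fun h => h.2
      rw [sum_congr rfl h2]
      calc ∑ i ∈ X, #{a ∈ A | a ∈ Pq q i} = ∑ a ∈ A, #{i ∈ X | a ∈ Pq q i} := by
            simp only [card_filter]
            exact sum_comm
        _ ≤ ∑ _a ∈ A, K ^ ((6 * c + 1) * r) := by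
            apply sum_le_sum
            intro a _
            apply overlap B j0 hB hK c hc2 m
            · intro g hg g' hg' hne
              exact hXsep g (mem_filter.mp hg).1 g' (mem_filter.mp hg').1 hne
            · intro i hi i' hi'
              have hia := (mem_filter.mp hi).2
              have hia' := (mem_filter.mp hi').2
              rw [hPq] at hia hia'
              obtain ⟨g, hg, hga⟩ := mem_image.mp hia
              obtain ⟨g', hg', hga'⟩ := mem_image.mp hia'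
              obtain ⟨hgG, hgi⟩ := (memCe i g).mp hg
              obtain ⟨hgG', hgi'⟩ := (memCe i' g').mp hg'
              have e1 := fib_mem n B j0 hB Q hQ c hc (hG g hgG) (hG g' hgG') hq
                (hga.trans hga'.symm)
              rw [← hm, mem_II] at e1
              rw [mem_II] at hgi hgi' ⊢
              intro j
              have e2 := SS_add (SS_add (SS_neg (hgi j)) (e1 j)) (hgi' j)
              have e3 : m * (i.1 - i'.1) =
                  -(m * (g.1 - i.1)) + m * (g.1 - g'.1) + m * (g'.1 - i'.1) := by ring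
              have e4 : 3 * c = c + c + c := by ring
              rw [e3, e4]
              exact e2
        _ = K ^ ((6 * c + 1) * r) * #A := by rw [sum_const, smul_eq_mul, mul_comm]
    calc ∑ i ∈ X, #(Q.biUnion fun q => Pq q i) ≤ ∑ i ∈ X, ∑ q ∈ Q, #(Pq q i) :=
          sum_le_sum fun i _ => card_biUnion_le
      _ = ∑ q ∈ Q, ∑ i ∈ X, #(Pq q i) := sum_comm
      _ ≤ ∑ _q ∈ Q, K ^ ((6 * c + 1) * r) * #A := sum_le_sum h1
      _ = _ := by
          rw [sum_const, smul_eq_mul]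
          ring
  -- real roots
  obtain ⟨N0, hN0⟩ : ∃ N0 : ℝ, N0 = ((W * #(II B j0 c) ^ (u - v) : ℕ) : ℝ) := ⟨_, rfl⟩
  have hN00 : 0 ≤ N0 := by
    rw [hN0]
    exact Nat.cast_nonneg _
  obtain ⟨w, hw⟩ : ∃ w : ℝ, w = N0 ^ ((u : ℝ)⁻¹) := ⟨_, rfl⟩
  have hw0 : 0 ≤ w := by
    rw [hw]
    exact Real.rpow_nonneg hN00 _
  have hwu : w ^ u = N0 := by
    rw [hw]
    exact Real.rpow_inv_natCast_pow hN00 hu.ne'
  have h1 : ∀ i, (#(Ce i) : ℝ) ≤ w * #(Q.biUnion fun q => Pq q i) := by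
    intro i
    apply le_of_pow_le_pow_left₀ hu.ne' (by positivity)
    rw [mul_pow, hwu, hN0]
    exact_mod_cast hCA i
  have h2 : (#G : ℝ) ≤ w * ((#Q * K ^ ((6 * c + 1) * r) * #A : ℕ) : ℝ) := by
    calc (#G : ℝ) ≤ ∑ i ∈ X, (#(Ce i) : ℝ) := by exact_mod_cast hcover
      _ ≤ ∑ i ∈ X, w * (#(Q.biUnion fun q => Pq q i) : ℝ) := sum_le_sum fun i _ => h1 i
      _ = w * ((∑ i ∈ X, #(Q.biUnion fun q => Pq q i) : ℕ) : ℝ) := by
          rw [← mul_sum]
          push_cast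
          rfl
      _ ≤ _ := mul_le_mul_of_nonneg_left (by exact_mod_cast hsum) hw0
  have h3 := pow_le_pow_left₀ (Nat.cast_nonneg _) h2 u
  rw [mul_pow, hwu, hN0] at h3
  exact_mod_cast h3

end Pool.Agent.H43.AP
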