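import Mathlib

/-!
# Products of a graph with kernels of projections

A graph over `D` is multiplied (in base `b`) with the graph `t ↦ s (L - 1 - t)` over `t < L`, whose
slice of slope `s` is a point and whose slices of slope `l ≠ s` are progressions of length `L`.
-/

namespace Pool.Agent.H43.AP

open Finset
open scoped Pointwise

/-- The slice of slope `l` of the kernel of slope `s`. -/
def ker (s l L : ℕ) : Finset ℕ := (range L).image fun t => s * (L - 1 - t) + l * t

lemma card_ker_ne {s l L : ℕ} (h : l ≠ s) : #(ker s l L) = L := by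
  rw [ker, card_image_of_injOn, card_range]
  intro t ht t' ht' he
  rw [mem_coe, mem_range] at ht ht'
  have e1 : ((L - 1 - t : ℕ) : ℤ) = (L : ℤ) - 1 - t := by omega
  have e2 : ((L - 1 - t' : ℕ) : ℤ) = (L : ℤ) - 1 - t' := by omega
  have e3 : (s : ℤ) * ((L - 1 - t : ℕ) : ℤ) + l * t = s * ((L - 1 - t' : ℕ) : ℤ) + l * t' := by
    exact_mod_cast he
  rw [e1, e2] at e3
  have e4 : ((l : ℤ) - s) * ((t : ℤ) - t') = 0 := by linear_combination e3
  rcases mul_eq_zero.mp e4 with h4 | h4
  · exact absurd (by exact_mod_cast (sub_eq_zero.mp h4)) h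
  · exact_mod_cast (sub_eq_zero.mp h4)

lemma card_ker_self {s L : ℕ} (hL : 0 < L) : #(ker s s L) = 1 := by
  rw [card_eq_one]
  refine ⟨s * (L - 1), ?_⟩
  ext x
  rw [ker, mem_image, mem_singleton]
  constructor
  · rintro ⟨t, ht, rfl⟩
    rw [mem_range] at ht
    rw [← mul_add]
    congr 1
    omega
  · rintro rfl
    exact ⟨0, mem_range.mpr hL, by simp⟩

lemma card_ker_add {s l L : ℕ} (hL : 0 < L) : #(ker s l L + ker s l L) ≤ 2 * #(ker s l L) := by
  by_cases h : l = s
  · subst h
    rw [card_ker_self hL]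
    have h1 := card_add_le (s := ker l l L) (t := ker l l L)
    rw [card_ker_self hL] at h1
    omega
  · rw [card_ker_ne h]
    have h1 : ker s l L + ker s l L ⊆
        (range (2 * L)).image fun u => s * (2 * (L - 1) - u) + l * u := by
      intro z hz
      obtain ⟨x, hx, y, hy, rfl⟩ := mem_add.mp hz
      rw [ker, mem_image] at hx hy
      obtain ⟨t, ht, rfl⟩ := hx
      obtain ⟨t', ht', rfl⟩ := hy
      rw [mem_range] at ht ht'
      rw [mem_image]
      refine ⟨t + t', mem_range.mpr (by omega), ?_⟩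
      have e : 2 * (L - 1) - (t + t') = (L - 1 - t) + (L - 1 - t') := by omega
      rw [e]
      ring
    exact (card_le_card h1).trans (card_image_le.trans (by rw [card_range]))

/-- The set of all `z + b w`. -/
def enc (b : ℕ) (B W : Finset ℕ) : Finset ℕ := (B ×ˢ W).image fun p => p.1 + b * p.2

lemma card_enc {b : ℕ} {B : Finset ℕ} (hB : ∀ z ∈ B, z < b) (W : Finset ℕ) :
    #(enc b B W) = #B * #W := by
  rw [enc, card_image_of_injOn, card_product]
  rintro ⟨z, w⟩ hp ⟨z', w'⟩ hp' h
  rw [mem_coe, mem_product] at hp hp'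
  have hz := hB z hp.1
  have hz' := hB z' hp'.1
  have h' : z + b * w = z' + b * w' := h
  have h1 : z = z' := by
    have := congrArg (· % b) h'
    simpa [Nat.add_mul_mod_self_left, Nat.mod_eq_of_lt hz, Nat.mod_eq_of_lt hz'] using this
  subst h1
  have h2 : w = w' := by
    have h3 : b * w = b * w' := by omega
    exact Nat.eq_of_mul_eq_mul_left (by omega) h3
  rw [h2]

lemma card_enc_add (b : ℕ) (B W : Finset ℕ) :
    #(enc b B W + enc b B W) ≤ #(B + B) * #(W + W) := by
  rw [← card_product]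
  refine le_trans (card_le_card ?_) (card_image_le (s := (B + B) ×ˢ (W + W))
    (f := fun p : ℕ × ℕ => p.1 + b * p.2))
  intro x hx
  obtain ⟨y, hy, z, hz, rfl⟩ := mem_add.mp hx
  rw [enc, mem_image] at hy hz
  obtain ⟨p, hp, rfl⟩ := hy
  obtain ⟨q, hq, rfl⟩ := hz
  rw [mem_product] at hp hq
  rw [mem_image]
  exact ⟨(p.1 + q.1, p.2 + q.2), mem_product.mpr ⟨add_mem_add hp.1 hq.1, add_mem_add hp.2 hq.2⟩,
    by ring⟩

/-- There is a graph with `n L ^ |S|` points whose slices of slopes `l ∈ T` lie in sets of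
`β l L ^ |S - l|` elements with at most `γ l 2 ^ |S| L ^ |S - l|` sums. -/
def Conf (T S : Finset ℕ) (L n : ℕ) (β γ : ℕ → ℕ) : Prop :=
  ∃ (D : Finset ℕ) (a : ℕ → ℕ) (B : ℕ → Finset ℕ), #D = n * L ^ #S ∧
    ∀ l ∈ T, (∀ d ∈ D, a d + l * d ∈ B l) ∧ #(B l) = β l * L ^ #(S.erase l) ∧
      #(B l + B l) ≤ γ l * 2 ^ #S * L ^ #(S.erase l)

lemma Conf.step {T S : Finset ℕ} {L n : ℕ} {β γ : ℕ → ℕ} (h : Conf T S L n β γ) (hL : 0 < L)
    {s : ℕ} (hs : s ∉ S) : Conf T (insert s S) L n β γ := by
  classical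
  obtain ⟨D, a, B, hD, hB⟩ := h
  obtain ⟨b, hbD, hbB⟩ : ∃ b : ℕ, (∀ d ∈ D, d < b) ∧ ∀ l ∈ T, ∀ z ∈ B l, z < b := by
    refine ⟨(D ∪ T.biUnion B).sup id + 1, ?_, ?_⟩
    · intro d hd
      exact Nat.lt_succ_of_le (le_sup (f := id) (mem_union_left _ hd))
    · intro l hl z hz
      exact Nat.lt_succ_of_le (le_sup (f := id)
        (mem_union_right _ (mem_biUnion.mpr ⟨l, hl, hz⟩)))
  refine ⟨enc b D (range L), fun d => a (d % b) + b * (s * (L - 1 - d / b)),
    fun l => enc b (B l) (ker s l L), ?_, ?_⟩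
  · rw [card_enc hbD, card_range, hD, card_insert_of_notMem hs, pow_succ]
    ring
  · intro l hl
    obtain ⟨h1, h2, h3⟩ := hB l hl
    have hc : L ^ #((insert s S).erase l) = L ^ #(S.erase l) * #(ker s l L) := by
      by_cases hls : l = s
      · subst hls
        rw [erase_insert hs, erase_eq_of_notMem hs, card_ker_self hL, mul_one]
      · rw [erase_insert_of_ne (Ne.symm hls), card_ker_ne hls,
          card_insert_of_notMem (fun h => hs (mem_of_mem_erase h)), pow_succ]
    refine ⟨?_, ?_, ?_⟩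
    · intro d hd
      rw [enc, mem_image] at hd
      obtain ⟨⟨x, t⟩, hp, rfl⟩ := hd
      rw [mem_product, mem_range] at hp
      have hx := hbD x hp.1
      have e1 : (x + b * t) % b = x := by
        rw [Nat.add_mul_mod_self_left, Nat.mod_eq_of_lt hx]
      have e2 : (x + b * t) / b = t := by
        rw [Nat.add_mul_div_left _ _ (by omega), Nat.div_eq_of_lt hx, zero_add]
      simp only [e1, e2]
      rw [enc, mem_image]
      refine ⟨(a x + l * x, s * (L - 1 - t) + l * t), mem_product.mpr ⟨h1 x hp.1, ?_⟩, by ring⟩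
      rw [ker, mem_image]
      exact ⟨t, mem_range.mpr hp.2, rfl⟩
    · rw [card_enc (hbB l hl), h2, hc]
      ring
    · calc #(enc b (B l) (ker s l L) + enc b (B l) (ker s l L))
          ≤ #(B l + B l) * #(ker s l L + ker s l L) := card_enc_add _ _ _
        _ ≤ (γ l * 2 ^ #S * L ^ #(S.erase l)) * (2 * #(ker s l L)) :=
            Nat.mul_le_mul h3 (card_ker_add hL)
        _ = _ := by
            rw [hc, card_insert_of_notMem hs, pow_succ]
            ring

lemma Conf.all {T : Finset ℕ} {L n : ℕ} {β γ : ℕ → ℕ} (h : Conf T ∅ L n β γ) (hL : 0 < L)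
    (S : Finset ℕ) : Conf T S L n β γ := by
  classical
  induction S using Finset.induction_on with
  | empty => exact h
  | insert s S hs ih => exact ih.step hL hs

end Pool.Agent.H43.AP
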