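import Mathlib

/-!
# Every configuration has a model in a box

For `N = #D` and a prime `P` the maps `φ z = N ((s z) mod P) / P` are almost homomorphisms into
`[0, N)`; for a suitable `s` the image of `D` has at least `N / 4` elements.
-/

namespace Pool.Agent.H43.AP

open Finset

/-- the map into `[0, N)` -/
private def phi (N P s z : ℕ) : ℕ := N * ((s * z) % P) / P

private lemma phi_lt {N P : ℕ} (hN : 0 < N) (hP : 0 < P) (s z : ℕ) : phi N P s z < N := by
  unfold phi
  rw [Nat.div_lt_iff_lt_mul hP]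
  exact Nat.mul_lt_mul_of_pos_left (Nat.mod_lt _ hP) hN

private lemma phi_le {N P : ℕ} (s z : ℕ) : P * phi N P s z ≤ N * ((s * z) % P) :=
  Nat.mul_div_le _ _

private lemma lt_phi {N P : ℕ} (hP : 0 < P) (s z : ℕ) :
    N * ((s * z) % P) < P * (phi N P s z + 1) := by
  unfold phi
  exact Nat.lt_mul_div_succ _ hP

/-- almost additivity -/
private lemma phi_add {N P : ℕ} (hP : 0 < P) (s x y q : ℕ) :
    ∃ t e : ℕ, t ≤ q ∧ e ≤ q ∧
      phi N P s y + q * phi N P s x = phi N P s (y + q * x) + t * N - e := by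
  obtain ⟨α, hα⟩ : ∃ α, α = (s * x) % P := ⟨_, rfl⟩
  obtain ⟨β, hβ⟩ : ∃ β, β = (s * y) % P := ⟨_, rfl⟩
  obtain ⟨γ, hγ⟩ : ∃ γ, γ = (s * (y + q * x)) % P := ⟨_, rfl⟩
  have hαP : α < P := hα ▸ Nat.mod_lt _ hP
  have hβP : β < P := hβ ▸ Nat.mod_lt _ hP
  have hγP : γ < P := hγ ▸ Nat.mod_lt _ hP
  -- `β + q α = γ + t P`
  have hmod : (β + q * α) % P = γ := by
    have h1 : s * (y + q * x) = s * y + q * (s * x) := by ring
    rw [hγ, h1, hβ, hα]
    conv_rhs => rw [Nat.add_mod, Nat.mul_mod q (s * x) P]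
    conv_lhs => rw [Nat.add_mod, Nat.mul_mod q (s * x % P) P, Nat.mod_mod, Nat.mod_mod]
  obtain ⟨t, ht⟩ : ∃ t, t = (β + q * α) / P := ⟨_, rfl⟩
  have hdiv : P * t + γ = β + q * α := by
    rw [ht, ← hmod]
    exact Nat.div_add_mod _ _
  have htq : t ≤ q := by
    have h1 : P * t < P * (q + 1) := by
      have h2 : q * α ≤ q * P := Nat.mul_le_mul_left _ hαP.le
      calc P * t ≤ β + q * α := by omega
        _ < P + q * P := by omega
        _ = P * (q + 1) := by ring
    exact Nat.lt_succ_iff.mp (Nat.lt_of_mul_lt_mul_left h1)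
  have h1 := phi_le (N := N) (P := P) s x
  have h2 := lt_phi (N := N) hP s x
  have h3 := phi_le (N := N) (P := P) s y
  have h4 := lt_phi (N := N) hP s y
  have h5 := phi_le (N := N) (P := P) s (y + q * x)
  have h6 := lt_phi (N := N) hP s (y + q * x)
  rw [← hα] at h1 h2
  rw [← hβ] at h3 h4
  rw [← hγ] at h5 h6
  set fx := phi N P s x
  set fy := phi N P s y
  set fz := phi N P s (y + q * x)
  have hN : N * (P * t) + N * γ = N * β + q * (N * α) := by
    calc N * (P * t) + N * γ = N * (P * t + γ) := by ring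
      _ = N * (β + q * α) := by rw [hdiv]
      _ = _ := by ring
  have hle : fy + q * fx ≤ fz + t * N := by
    have h7 : P * (fy + q * fx) < P * (fz + t * N + 1) := by
      have h8 : q * (P * fx) ≤ q * (N * α) := Nat.mul_le_mul_left _ h1
      calc P * (fy + q * fx) = P * fy + q * (P * fx) := by ring
        _ ≤ N * β + q * (N * α) := by omega
        _ = N * (P * t) + N * γ := hN.symm
        _ < N * (P * t) + P * (fz + 1) := by omega
        _ = P * (fz + t * N + 1) := by ring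
    exact Nat.lt_succ_iff.mp (Nat.lt_of_mul_lt_mul_left h7)
  have hge : fz + t * N ≤ fy + q * fx + q := by
    have h7 : P * (fz + t * N) < P * (fy + q * fx + q + 1) := by
      have h8 : q * (N * α) ≤ q * (P * (fx + 1)) := Nat.mul_le_mul_left _ h2.le
      calc P * (fz + t * N) = N * (P * t) + P * fz := by ring
        _ ≤ N * (P * t) + N * γ := by omega
        _ = N * β + q * (N * α) := hN
        _ < P * (fy + 1) + q * (P * (fx + 1)) := by omega
        _ = P * (fy + q * fx + q + 1) := by ring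
    exact Nat.lt_succ_iff.mp (Nat.lt_of_mul_lt_mul_left h7)
  exact ⟨t, fz + t * N - (fy + q * fx), htq, by omega, by omega⟩

/-- few `s` identify two given numbers -/
private lemma few_s {N P : ℕ} (hN : 0 < N) (hP : P.Prime) (hNP : N ≤ P) {x x' : ℕ} (hx : x < P)
    (hx' : x' < P) (hne : x ≠ x') :
    N * #{s ∈ range P | phi N P s x = phi N P s x'} ≤ 3 * P := by
  have hP0 : 0 < P := hP.pos
  have h1 : #{s ∈ range P | phi N P s x = phi N P s x'} ≤
      #(Finset.Icc (-((P / N : ℕ) : ℤ)) ((P / N : ℕ) : ℤ)) := by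
    apply card_le_card_of_injOn
      (fun s : ℕ => (((s * x) % P : ℕ) : ℤ) - (((s * x') % P : ℕ) : ℤ))
    · intro s hs
      rw [mem_coe, mem_filter] at hs
      rw [mem_coe, Finset.mem_Icc]
      beta_reduce
      have h2 := phi_le (N := N) (P := P) s x
      have h3 := lt_phi (N := N) hP0 s x
      have h4 := phi_le (N := N) (P := P) s x'
      have h5 := lt_phi (N := N) hP0 s x'
      rw [hs.2] at h2 h3
      generalize phi N P s x' = f at h2 h3 h4 h5
      generalize (s * x) % P = α at h2 h3 ⊢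
      generalize (s * x') % P = β at h4 h5 ⊢
      have h6 : P * (f + 1) = P * f + P := by ring
      have h7 : N * (α - β) ≤ P := by
        rw [Nat.mul_sub]
        omega
      have h8 : N * (β - α) ≤ P := by
        rw [Nat.mul_sub]
        omega
      have h9 : α - β ≤ P / N := (Nat.le_div_iff_mul_le hN).mpr (by rw [mul_comm]; exact h7)
      have h10 : β - α ≤ P / N := (Nat.le_div_iff_mul_le hN).mpr (by rw [mul_comm]; exact h8)
      generalize P / N = w at h9 h10 ⊢
      constructor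
      · omega
      · omega
    · intro s hs s' hs' h
      rw [mem_coe, mem_filter, mem_range] at hs hs'
      simp only at h
      have e1 : (((P * (s * x / P) + (s * x) % P : ℕ)) : ℤ) = ((s * x : ℕ) : ℤ) := by
        rw [Nat.div_add_mod]
      have e2 : (((P * (s * x' / P) + (s * x') % P : ℕ)) : ℤ) = ((s * x' : ℕ) : ℤ) := by
        rw [Nat.div_add_mod]
      have e3 : (((P * (s' * x / P) + (s' * x) % P : ℕ)) : ℤ) = ((s' * x : ℕ) : ℤ) := by
        rw [Nat.div_add_mod]
      have e4 : (((P * (s' * x' / P) + (s' * x') % P : ℕ)) : ℤ) = ((s' * x' : ℕ) : ℤ) := by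
        rw [Nat.div_add_mod]
      rw [Nat.cast_add, Nat.cast_mul, Nat.cast_mul] at e1 e2 e3 e4
      have hdvd : (P : ℤ) ∣ ((s : ℤ) - s') * ((x : ℤ) - x') := by
        refine ⟨((s * x / P : ℕ) : ℤ) - ((s * x' / P : ℕ) : ℤ) - ((s' * x / P : ℕ) : ℤ)
          + ((s' * x' / P : ℕ) : ℤ), ?_⟩
        linear_combination (-1) * e1 + e2 + e3 - e4 + h
      rcases (Nat.prime_iff_prime_int.mp hP).dvd_or_dvd hdvd with h5 | h5
      · have h6 : (s : ℤ) - s' = 0 := Int.eq_zero_of_abs_lt_dvd h5 (by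
          rw [abs_lt]
          constructor <;> omega)
        omega
      · exfalso
        have h6 : (x : ℤ) - x' = 0 := Int.eq_zero_of_abs_lt_dvd h5 (by
          rw [abs_lt]
          constructor <;> omega)
        omega
  have h2 : #(Finset.Icc (-((P / N : ℕ) : ℤ)) ((P / N : ℕ) : ℤ)) = 2 * (P / N) + 1 := by
    rw [Int.card_Icc]
    omega
  rw [h2] at h1
  have h3 : N * (P / N) ≤ P := Nat.mul_div_le _ _
  calc N * #{s ∈ range P | phi N P s x = phi N P s x'} ≤ N * (2 * (P / N) + 1) :=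
        Nat.mul_le_mul_left _ h1
    _ = 2 * (N * (P / N)) + N := by ring
    _ ≤ 3 * P := by omega

/-- a good `s` -/
private lemma exists_s (D : Finset ℕ) (hD : D.Nonempty) {P : ℕ} (hP : P.Prime) (hNP : #D ≤ P)
    (hDP : ∀ x ∈ D, x < P) : ∃ s : ℕ, #D ≤ 4 * #(D.image (phi #D P s)) := by
  classical
  have hN : 0 < #D := card_pos.mpr hD
  have hP0 : 0 < P := hP.pos
  -- the number of pairs
  have hpairs : #D * ∑ s ∈ range P, #{p ∈ D.offDiag | phi #D P s p.1 = phi #D P s p.2} ≤
      #D * (3 * #D * P) := by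
    have h1 : ∑ s ∈ range P, #{p ∈ D.offDiag | phi #D P s p.1 = phi #D P s p.2} =
        ∑ p ∈ D.offDiag, #{s ∈ range P | phi #D P s p.1 = phi #D P s p.2} := by
      simp only [card_filter]
      exact sum_comm
    rw [h1, mul_sum]
    calc ∑ p ∈ D.offDiag, #D * #{s ∈ range P | phi #D P s p.1 = phi #D P s p.2}
        ≤ ∑ _p ∈ D.offDiag, 3 * P := by
          apply sum_le_sum
          intro p hp
          rw [mem_offDiag] at hp
          exact few_s hN hP hNP (hDP _ hp.1) (hDP _ hp.2.1) hp.2.2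
      _ = #D.offDiag * (3 * P) := by rw [sum_const, smul_eq_mul]
      _ ≤ #D * #D * (3 * P) := Nat.mul_le_mul_right _ (by
          rw [offDiag_card]
          exact Nat.sub_le _ _)
      _ = _ := by ring
  have hsum := Nat.le_of_mul_le_mul_left hpairs hN
  obtain ⟨s, -, hs⟩ : ∃ s ∈ range P,
      #{p ∈ D.offDiag | phi #D P s p.1 = phi #D P s p.2} ≤ 3 * #D := by
    by_contra hcon
    push Not at hcon
    have h1 : ∑ _s ∈ range P, (3 * #D + 1) ≤
        ∑ s ∈ range P, #{p ∈ D.offDiag | phi #D P s p.1 = phi #D P s p.2} :=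
      sum_le_sum fun s hs => hcon s hs
    rw [sum_const, card_range, smul_eq_mul] at h1
    have h2 : P * (3 * #D + 1) = 3 * #D * P + P := by ring
    omega
  refine ⟨s, ?_⟩
  -- Cauchy-Schwarz
  set f := phi #D P s with hf
  have h4 : #D = ∑ t ∈ D.image f, #{y ∈ D | f y = t} := card_eq_sum_card_image f D
  have h5 := sq_sum_le_card_mul_sum_sq (s := D.image f) (f := fun t => #{y ∈ D | f y = t})
  have h6 : ∑ t ∈ D.image f, #{y ∈ D | f y = t} ^ 2 = #{p ∈ D ×ˢ D | f p.1 = f p.2} := by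
    have h7 : #{p ∈ D ×ˢ D | f p.1 = f p.2} = ∑ x ∈ D, #{y ∈ D | f y = f x} := by
      rw [card_filter, sum_product_right]
      apply sum_congr rfl
      intro x _
      exact (card_filter _ _).symm
    rw [h7, sum_comp (fun t => #{y ∈ D | f y = t}) f]
    apply sum_congr rfl
    intro t _
    rw [smul_eq_mul, sq]
  have h8 : #{p ∈ D ×ˢ D | f p.1 = f p.2} ≤ 4 * #D := by
    have h9 : ({p ∈ D ×ˢ D | f p.1 = f p.2} : Finset (ℕ × ℕ)) ⊆
        D.diag ∪ {p ∈ D.offDiag | f p.1 = f p.2} := by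
      intro p hp
      rw [mem_filter, mem_product] at hp
      rw [mem_union, mem_diag, mem_filter, mem_offDiag]
      by_cases h : p.1 = p.2
      · exact Or.inl ⟨hp.1.1, h⟩
      · exact Or.inr ⟨⟨hp.1.1, hp.1.2, h⟩, hp.2⟩
    have h10 := (card_le_card h9).trans (card_union_le _ _)
    rw [diag_card] at h10
    omega
  rw [← h4, h6] at h5
  have h9 : #D * #D ≤ #D * (4 * #(D.image f)) := by
    calc #D * #D = #D ^ 2 := (sq _).symm
      _ ≤ #(D.image f) * #{p ∈ D ×ˢ D | f p.1 = f p.2} := h5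
      _ ≤ #(D.image f) * (4 * #D) := Nat.mul_le_mul_left _ h8
      _ = _ := by ring
  exact Nat.le_of_mul_le_mul_left h9 hN

theorem rect_slices (D : Finset ℕ) (hD : D.Nonempty) (a : ℕ → ℕ) :
    ∃ (D' : Finset ℕ) (a' : ℕ → ℕ), D' ⊆ range #D ∧ #D ≤ 4 * #D' ∧ (∀ x ∈ D', a' x < #D) ∧
      ∀ (Q A : Finset ℕ), (∀ d ∈ D, ∀ q ∈ Q, a d + q * d ∈ A) →
        ∃ A' : Finset ℕ, (∀ x ∈ D', ∀ q ∈ Q, a' x + q * x ∈ A') ∧
          #A' ≤ (∑ q ∈ Q, (q + 1) ^ 2) * #A := by
  classical
  have hN : 0 < #D := card_pos.mpr hD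
  obtain ⟨P, hPge, hP⟩ := Nat.exists_infinite_primes (D.sup id + #D + 1)
  have hP0 : 0 < P := hP.pos
  have hDP : ∀ x ∈ D, x < P := by
    intro x hx
    have h1 : id x ≤ D.sup id := le_sup hx
    simp only [id] at h1
    omega
  obtain ⟨s, hs⟩ := exists_s D hD hP (by omega) hDP
  set f := phi #D P s with hf
  have hrep : ∀ x : ℕ, ∃ d : ℕ, x ∈ D.image f → d ∈ D ∧ f d = x := by
    intro x
    by_cases hx : x ∈ D.image f
    · obtain ⟨d, hd, hdx⟩ := mem_image.mp hx
      exact ⟨d, fun _ => ⟨hd, hdx⟩⟩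
    · exact ⟨0, fun h => absurd h hx⟩
  choose rep hrep using hrep
  refine ⟨D.image f, fun x => f (a (rep x)), ?_, hs, ?_, ?_⟩
  · intro x hx
    obtain ⟨d, -, rfl⟩ := mem_image.mp hx
    exact mem_range.mpr (phi_lt hN hP0 s d)
  · intro x _
    exact phi_lt hN hP0 s _
  · intro Q A hA
    refine ⟨Q.biUnion fun q => (A ×ˢ (range (q + 1) ×ˢ range (q + 1))).image
      fun z : ℕ × ℕ × ℕ => f z.1 + z.2.1 * #D - z.2.2, ?_, ?_⟩
    · intro x hx q hq
      obtain ⟨hd, hdx⟩ := hrep x hx
      obtain ⟨t, e, ht, he, h⟩ := phi_add (N := #D) hP0 s (rep x) (a (rep x)) q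
      refine mem_biUnion.mpr ⟨q, hq, mem_image.mpr ⟨(a (rep x) + q * rep x, t, e), ?_, ?_⟩⟩
      · simp only [mem_product, mem_range]
        exact ⟨hA _ hd q hq, by omega, by omega⟩
      · rw [← hf, hdx] at h
        exact h.symm
    · refine card_biUnion_le.trans ?_
      rw [sum_mul]
      apply sum_le_sum
      intro q _
      refine card_image_le.trans ?_
      rw [card_product, card_product, card_range, sq, mul_comm]

end Pool.Agent.H43.AP
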