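import Pool.Agent.H43.AP.Defs
import Pool.Agent.H43.AP.Product
import Pool.Agent.H43.AP.Rect

/-!
# The converse: structured slices give nothing more
-/

namespace Pool.Agent.H43.AP

open Finset
open scoped Pointwise

lemma range_add_range (m : ℕ) : #(range m + range m) ≤ 2 * m := by
  have h : range m + range m ⊆ range (2 * m) := by
    intro z hz
    obtain ⟨x, hx, y, hy, rfl⟩ := mem_add.mp hz
    rw [mem_range] at hx hy ⊢
    omega
  simpa using card_le_card h

/-- The product configuration. -/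
lemma product_conf (J Q : Finset ℕ) (hJ : J.Nonempty) (hJQ : Disjoint J Q)
    (D : Finset ℕ) (hD : D.Nonempty) (a : ℕ → ℕ) (A : Finset ℕ)
    (hA : ∀ d ∈ D, ∀ q ∈ Q, a d + q * d ∈ A) (L : ℕ) (hL : 0 < L) (hDL : #D ≤ #A * L) :
    ∃ (D1 : Finset ℕ) (a1 : ℕ → ℕ) (A1 : Finset ℕ), #D * L ^ #J ≤ 4 * #D1 ∧
      (∀ d ∈ D1, ∀ q ∈ Q, a1 d + q * d ∈ A1) ∧
      #A1 ≤ (#Q * (∑ q ∈ Q, (q + 1) ^ 2) + 1) * (#A * L ^ #J) ∧
      Structured J (2 ^ (#J + 1) + ∑ j ∈ J, (j + 1)) D1 a1 A1 := by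
  classical
  obtain ⟨D', a', hD', hDD', ha', hAA'⟩ := rect_slices D hD a
  obtain ⟨A', hA', hA'c⟩ := hAA' Q A hA
  set r := #J with hr
  have hr0 : 0 < r := card_pos.mpr hJ
  set N := #D with hN
  have hbase : Conf (Q ∪ J) ∅ L #D' (fun l => if l ∈ J then (l + 1) * N else #A')
      (fun l => if l ∈ J then 2 * ((l + 1) * N) else #(A' + A')) := by
    refine ⟨D', a', fun l => if l ∈ J then range ((l + 1) * N) else A', by simp, ?_⟩
    intro l hl
    by_cases hlJ : l ∈ J
    · simp only [hlJ, if_true]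
      refine ⟨?_, ?_, ?_⟩
      · intro d hd
        have h1 := ha' d hd
        have h2 := mem_range.mp (hD' hd)
        have h3 : l * d ≤ l * N := Nat.mul_le_mul_left _ h2.le
        rw [mem_range]
        calc a' d + l * d < N + l * N := by omega
          _ = (l + 1) * N := by ring
      · simp
      · simpa using range_add_range ((l + 1) * N)
    · simp only [hlJ, if_false]
      have hlQ : l ∈ Q := by
        rcases mem_union.mp hl with h | h
        · exact h
        · exact absurd h hlJ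
      exact ⟨fun d hd => hA' d hd l hlQ, by simp, by simp⟩
  obtain ⟨D1, a1, B, hD1, hB⟩ := hbase.all hL J
  have hrr : L * L ^ (r - 1) = L ^ r := by
    rw [← pow_succ']
    congr 1
    omega
  refine ⟨D1, a1, Q.biUnion B ∪ range (N * L ^ (r - 1)), ?_, ?_, ?_, ?_⟩
  · rw [hD1, ← mul_assoc]
    exact Nat.mul_le_mul_right _ hDD'
  · intro d hd q hq
    exact mem_union_left _ (mem_biUnion.mpr ⟨q, hq, (hB q (mem_union_left _ hq)).1 d hd⟩)
  · have h1 : #(Q.biUnion B) ≤ #Q * ((∑ q ∈ Q, (q + 1) ^ 2) * #A * L ^ r) := by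
      refine card_biUnion_le_card_mul _ _ _ ?_
      intro q hq
      have hqJ : q ∉ J := fun h => (Finset.disjoint_left.mp hJQ) h hq
      have h2 := (hB q (mem_union_left _ hq)).2.1
      simp only [hqJ, if_false] at h2
      rw [erase_eq_of_notMem hqJ] at h2
      rw [h2]
      exact Nat.mul_le_mul_right _ hA'c
    have h2 : N * L ^ (r - 1) ≤ #A * L ^ r := by
      calc N * L ^ (r - 1) ≤ (#A * L) * L ^ (r - 1) := Nat.mul_le_mul_right _ hDL
        _ = #A * L ^ r := by rw [mul_assoc, hrr]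
    calc #(Q.biUnion B ∪ range (N * L ^ (r - 1)))
        ≤ #(Q.biUnion B) + #(range (N * L ^ (r - 1))) := card_union_le _ _
      _ ≤ #Q * ((∑ q ∈ Q, (q + 1) ^ 2) * #A * L ^ r) + #A * L ^ r := by
          rw [card_range]
          exact Nat.add_le_add h1 h2
      _ = _ := by ring
  · intro j hj
    obtain ⟨h1, h2, h3⟩ := hB j (mem_union_right _ hj)
    simp only [hj, if_true] at h2 h3
    have hje : #(J.erase j) = r - 1 := card_erase_of_mem hj
    rw [hje] at h2 h3
    refine ⟨B j, h1, ?_, ?_⟩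
    · have h4 : N * L ^ (r - 1) ≤ #(Q.biUnion B ∪ range (N * L ^ (r - 1))) := by
        have := card_le_card (subset_union_right (s₁ := Q.biUnion B)
          (s₂ := range (N * L ^ (r - 1))))
        rwa [card_range] at this
      have h5 : j + 1 ≤ 2 ^ (r + 1) + ∑ j ∈ J, (j + 1) := by
        have : j + 1 ≤ ∑ j ∈ J, (j + 1) :=
          single_le_sum (f := fun j => j + 1) (fun _ _ => Nat.zero_le _) hj
        exact this.trans (Nat.le_add_left _ _)
      calc #(B j) = (j + 1) * (N * L ^ (r - 1)) := by rw [h2]; ring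
        _ ≤ _ := Nat.mul_le_mul h5 h4
    · calc #(B j + B j) ≤ 2 * ((j + 1) * N) * 2 ^ r * L ^ (r - 1) := h3
        _ = 2 ^ (r + 1) * #(B j) := by rw [h2]; ring
        _ ≤ _ := Nat.mul_le_mul_right _ (Nat.le_add_right _ _)

/-- **The converse.** -/
theorem converse (J Q : Finset ℕ) (hJ : J.Nonempty) (hQ : Q.Nonempty) (hJQ : Disjoint J Q)
    (u v : ℕ) (hv : 1 ≤ v) (hvu : v ≤ u)
    (h : MixedAdmissible J Q (u + #J * (u - v)) (u + (#J - 1) * (u - v))) :
    Admissible Q u v := by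
  classical
  obtain ⟨C, hC⟩ := h
  set r := #J with hr
  have hr0 : 0 < r := card_pos.mpr hJ
  set w := u - v with hw
  set K0 := 2 ^ (r + 1) + ∑ j ∈ J, (j + 1) with hK0
  set c2 := #Q * (∑ q ∈ Q, (q + 1) ^ 2) + 1 with hc2
  set V := u + (r - 1) * w with hV
  set U := u + r * w with hU
  set W0 := 4 ^ V * (C * K0 ^ C) * c2 ^ U with hW0
  refine ⟨W0 * 2 ^ (r * w) + 1, ?_⟩
  intro D a A hA
  rcases D.eq_empty_or_nonempty with h0 | hD
  · rw [h0, card_empty, zero_pow (by omega)]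
    exact Nat.zero_le _
  have hN1 : 1 ≤ #D := card_pos.mpr hD
  have hA1 : 1 ≤ #A := by
    obtain ⟨d, hd⟩ := hD
    obtain ⟨q, hq⟩ := hQ
    exact card_pos.mpr ⟨_, hA d hd q hq⟩
  rcases Nat.lt_or_ge #D #A with hDA | hDA
  · calc #D ^ v ≤ #D ^ u := Nat.pow_le_pow_right hN1 hvu
      _ ≤ #A ^ u := Nat.pow_le_pow_left hDA.le _
      _ ≤ (W0 * 2 ^ (r * w) + 1) * #A ^ u := Nat.le_mul_of_pos_left _ (Nat.succ_pos _)
  set N := #D with hN
  set n := #A with hn
  set L := N / n + 1 with hL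
  have hL0 : 0 < L := Nat.succ_pos _
  have hNL : N ≤ n * L := by
    have := Nat.lt_mul_div_succ N hA1
    exact this.le
  have hLN : n * L ≤ 2 * N := by
    have h1 : n * (N / n) ≤ N := Nat.mul_div_le N n
    calc n * L = n * (N / n) + n := by rw [hL]; ring
      _ ≤ 2 * N := by omega
  obtain ⟨D1, a1, A1, h1, h2, h3, h4⟩ := product_conf J Q hJ hJQ D hD a A hA L hL0 hNL
  have hD1 : D1.Nonempty := by
    rw [← card_pos]
    have h0 : 0 < N * L ^ r := Nat.mul_pos hN1 (Nat.pow_pos hL0)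
    have h1' : N * L ^ r ≤ 4 * #D1 := h1
    omega
  have hK01 : 1 ≤ K0 := Nat.one_le_two_pow.trans (Nat.le_add_right _ _)
  have h5 := hC D1 a1 A1 K0 hD1 hK01 h2 h4
  have h6 : (N * L ^ r) ^ V ≤ W0 * (n * L ^ r) ^ U := by
    calc (N * L ^ r) ^ V ≤ (4 * #D1) ^ V := Nat.pow_le_pow_left h1 _
      _ = 4 ^ V * #D1 ^ V := by rw [mul_pow]
      _ ≤ 4 ^ V * (C * K0 ^ C * #A1 ^ U) := Nat.mul_le_mul_left _ h5
      _ ≤ 4 ^ V * (C * K0 ^ C * (c2 * (n * L ^ r)) ^ U) := by gcongr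
      _ = _ := by rw [mul_pow c2, hW0]; ring
  have hVU : U = V + w := by
    rw [hU, hV]
    have : r * w = (r - 1) * w + w := by
      conv_lhs => rw [show r = (r - 1) + 1 by omega]
      ring
    omega
  have hVv : V = v + r * w := by
    rw [hV]
    have : r * w = (r - 1) * w + w := by
      conv_lhs => rw [show r = (r - 1) + 1 by omega]
      ring
    omega
  have hLV : 0 < L ^ (r * V) := Nat.pow_pos hL0
  have h7 : N ^ V ≤ W0 * n ^ U * L ^ (r * w) := by
    apply Nat.le_of_mul_le_mul_right _ hLV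
    calc N ^ V * L ^ (r * V) = (N * L ^ r) ^ V := by rw [mul_pow, pow_mul]
      _ ≤ W0 * (n * L ^ r) ^ U := h6
      _ = W0 * n ^ U * L ^ (r * U) := by rw [mul_pow, pow_mul]; ring
      _ = W0 * n ^ U * L ^ (r * w) * L ^ (r * V) := by
          rw [hVU, mul_add, pow_add L]; ring
  have h8 : N ^ v * (N ^ (r * w) * n ^ (r * w)) ≤
      (W0 * 2 ^ (r * w) * n ^ u) * (N ^ (r * w) * n ^ (r * w)) := by
    calc N ^ v * (N ^ (r * w) * n ^ (r * w)) = N ^ V * n ^ (r * w) := by
          rw [hVv, pow_add]; ring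
      _ ≤ (W0 * n ^ U * L ^ (r * w)) * n ^ (r * w) := Nat.mul_le_mul_right _ h7
      _ = W0 * n ^ U * (n * L) ^ (r * w) := by rw [mul_pow]; ring
      _ ≤ W0 * n ^ U * (2 * N) ^ (r * w) := by gcongr
      _ = _ := by rw [hU, pow_add, mul_pow]; ring
  have h9 : 0 < N ^ (r * w) * n ^ (r * w) := Nat.mul_pos (Nat.pow_pos hN1) (Nat.pow_pos hA1)
  have h10 := Nat.le_of_mul_le_mul_right h8 h9
  exact h10.trans (Nat.mul_le_mul_right _ (Nat.le_succ _))

end Pool.Agent.H43.AP
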