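import Pool.Agent.H43.AK.Defs

/-!
# Structured slices
-/

namespace Pool.Agent.H43.AP

open Finset
open scoped Pointwise

/-- For all `j` in `J` the slice `{a d + j d : d ∈ D}` lies in a set `B` with at most `K |A|`
elements and `|B + B| ≤ K |B|`. -/
def Structured (J : Finset ℕ) (K : ℕ) (D : Finset ℕ) (a : ℕ → ℕ) (A : Finset ℕ) : Prop :=
  ∀ j ∈ J, ∃ B : Finset ℕ, (∀ d ∈ D, a d + j * d ∈ B) ∧ #B ≤ K * #A ∧ #(B + B) ≤ K * #B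

/-- The exponent `u / v` is admissible for the slopes in `Q`: `|D| ^ v ≤ W |A| ^ u` whenever `A`
contains `a d + j d` for all `d ∈ D`, `j ∈ Q`. -/
def Admissible (Q : Finset ℕ) (u v : ℕ) : Prop :=
  ∃ W : ℕ, ∀ (D : Finset ℕ) (a : ℕ → ℕ) (A : Finset ℕ),
    (∀ d ∈ D, ∀ j ∈ Q, a d + j * d ∈ A) → #D ^ v ≤ W * #A ^ u

/-- The bound `|D| ^ (u + (|J| - 1) (u - v)) ≤ C K ^ C (∏ |B_j|) ^ (u - v) |A| ^ u` whenever `A`
contains `a d + j d` for all `d ∈ D`, `j ∈ Q` and `B_j` contains `a d + j d` for all `d ∈ D`,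
`j ∈ J`, with `|B_j + B_j| ≤ K |B_j|`. -/
def MixedBound (J Q : Finset ℕ) (u v : ℕ) : Prop :=
  ∃ C : ℕ, ∀ (D : Finset ℕ) (a : ℕ → ℕ) (A : Finset ℕ) (B : ℕ → Finset ℕ) (K : ℕ),
    D.Nonempty → 1 ≤ K → (∀ d ∈ D, ∀ j ∈ Q, a d + j * d ∈ A) →
    (∀ j ∈ J, ∀ d ∈ D, a d + j * d ∈ B j) → (∀ j ∈ J, #(B j + B j) ≤ K * #(B j)) →
    #D ^ (u + (#J - 1) * (u - v)) ≤ C * K ^ C * (∏ j ∈ J, #(B j)) ^ (u - v) * #A ^ u

/-- The exponent `u / v` is admissible for structured slices `j ∈ J` and free slices `j ∈ Q`: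
`|D| ^ v ≤ C K ^ C |A| ^ u` whenever `A` contains `a d + j d` for all `d ∈ D`, `j ∈ Q` and the
slices `j ∈ J` are structured. -/
def MixedAdmissible (J Q : Finset ℕ) (u v : ℕ) : Prop :=
  ∃ C : ℕ, ∀ (D : Finset ℕ) (a : ℕ → ℕ) (A : Finset ℕ) (K : ℕ), D.Nonempty → 1 ≤ K →
    (∀ d ∈ D, ∀ j ∈ Q, a d + j * d ∈ A) → Structured J K D a A →
    #D ^ v ≤ C * K ^ C * #A ^ u

/-- Question Q1: there are `c k → 0` such that every set containing a progression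
`a d, a d + d, ..., a d + (k-1) d` for each `1 ≤ d ≤ N` has at least `δ_k N ^ (1 - c k)` elements
for all large `N`. -/
def Green : Prop :=
  ∃ c : ℕ → ℝ, Filter.Tendsto c Filter.atTop (nhds 0) ∧ ∀ k, 1 ≤ k → ∃ δ > (0 : ℝ),
    ∀ᶠ N : ℕ in Filter.atTop, ∀ (a : ℕ → ℕ) (A : Finset ℕ),
      (∀ d ∈ Icc 1 N, ∀ j < k, a d + j * d ∈ A) → δ * (N : ℝ) ^ (1 - c k) ≤ #A

/-- Question Q1 for sets whose progressions can be chosen with first terms `a d ≤ K |A|`. -/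
def GreenShort : Prop :=
  ∃ c : ℕ → ℝ, Filter.Tendsto c Filter.atTop (nhds 0) ∧ ∀ k, 1 ≤ k → ∀ K : ℕ, ∃ δ > (0 : ℝ),
    ∀ᶠ N : ℕ in Filter.atTop, ∀ (a : ℕ → ℕ) (A : Finset ℕ),
      (∀ d ∈ Icc 1 N, ∀ j < k, a d + j * d ∈ A) → (∀ d ∈ Icc 1 N, a d ≤ K * #A) →
      δ * (N : ℝ) ^ (1 - c k) ≤ #A

/-- Question Q1 for sets whose slices `{a d + j d : 1 ≤ d ≤ N}`, `j < r`, are structured. -/
def GreenStructured (r : ℕ) : Prop :=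
  ∃ c : ℕ → ℝ, Filter.Tendsto c Filter.atTop (nhds 0) ∧ ∀ k, 1 ≤ k → ∀ K : ℕ, ∃ δ > (0 : ℝ),
    ∀ᶠ N : ℕ in Filter.atTop, ∀ (a : ℕ → ℕ) (A : Finset ℕ),
      (∀ d ∈ Icc 1 N, ∀ j < k, a d + j * d ∈ A) → Structured (range r) K (Icc 1 N) a A →
      δ * (N : ℝ) ^ (1 - c k) ≤ #A

end Pool.Agent.H43.AP
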