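import Pool.Agent.H43.AK.Main


/-!
# Projections of a graph of small doubling have small doubling
-/

namespace Pool.Agent.H43.AP

open Finset
open scoped Pointwise
open Pool.Agent.H43.AK

lemma proj_doubling (G : Finset (ℤ × ℤ)) (hG : 0 < #G) (L : ℕ)
    (hL : ∀ m : ℕ, #(m • G) ≤ L ^ m * #G) (p : ℤ × ℤ →+ ℤ) :
    #(G.image p + G.image p) ≤ L ^ 3 * #(G.image p) := by
  classical
  obtain ⟨c, hc⟩ := exists_fiber G (G.image p) p (fun g hg => mem_image_of_mem _ hg) hG
  set F : Finset (ℤ × ℤ) := {g ∈ G | p g = c} with hF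
  have hF0 : 0 < #F := by
    rcases Nat.eq_zero_or_pos #F with h | h
    · rw [h, zero_mul] at hc; omega
    · exact h
  have hrep : ∀ s, ∃ v : ℤ × ℤ, s ∈ G.image p + G.image p → v ∈ 2 • G ∧ p v = s := by
    intro s
    by_cases hs : s ∈ G.image p + G.image p
    · obtain ⟨x, hx, y, hy, rfl⟩ := mem_add.mp hs
      obtain ⟨g, hg, rfl⟩ := mem_image.mp hx
      obtain ⟨h, hh, rfl⟩ := mem_image.mp hy
      exact ⟨g + h, fun _ => ⟨by rw [two_nsmul]; exact add_mem_add hg hh, by simp⟩⟩
    · exact ⟨0, fun h => absurd h hs⟩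
  choose v hv using hrep
  have h1 : #((G.image p + G.image p) ×ˢ F) ≤ #(3 • G) := by
    apply card_le_card_of_injOn (fun q => v q.1 + q.2)
    · intro q hq
      rw [mem_coe, mem_product] at hq
      rw [mem_coe, show (3 : ℕ) = 2 + 1 from rfl, succ_nsmul]
      exact add_mem_add (hv _ hq.1).1 (mem_filter.mp hq.2).1
    · rintro ⟨s, g⟩ hq ⟨s', g'⟩ hq' h
      rw [mem_coe, mem_product] at hq hq'
      have e1 := congrArg p h
      simp only [map_add] at e1
      rw [(hv _ hq.1).2, (hv _ hq'.1).2, (mem_filter.mp hq.2).2, (mem_filter.mp hq'.2).2] at e1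
      have e2 : s = s' := add_right_cancel e1
      subst e2
      have e3 : g = g' := add_left_cancel h
      rw [e3]
  rw [card_product] at h1
  have h2 : #(G.image p + G.image p) * #F ≤ (L ^ 3 * #(G.image p)) * #F := by
    calc #(G.image p + G.image p) * #F ≤ #(3 • G) := h1
      _ ≤ L ^ 3 * #G := hL 3
      _ ≤ L ^ 3 * (#F * #(G.image p)) := Nat.mul_le_mul_left _ hc
      _ = _ := by ring
  exact Nat.le_of_mul_le_mul_right h2 hF0

/-- The projection `(x, y) ↦ y + j x`. -/
def proj (j : ℕ) : ℤ × ℤ →+ ℤ where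
  toFun g := g.2 + (j : ℤ) * g.1
  map_zero' := by simp
  map_add' g h := by simp only [Prod.snd_add, Prod.fst_add]; ring

lemma image_proj (D : Finset ℕ) (a : ℕ → ℕ) (j : ℕ) :
    (graph D a).image (proj j) = (D.image fun d => a d + j * d).image fun n : ℕ => (n : ℤ) := by
  rw [graph, image_image, image_image]
  apply image_congr
  intro d _
  simp [proj]

lemma card_image_add (B : Finset ℕ) :
    #((B.image fun n : ℕ => (n : ℤ)) + (B.image fun n : ℕ => (n : ℤ))) = #(B + B) := by
  have h : (B.image fun n : ℕ => (n : ℤ)) + (B.image fun n : ℕ => (n : ℤ)) =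
      (B + B).image fun n : ℕ => (n : ℤ) := by
    ext z
    constructor
    · intro hz
      obtain ⟨x, hx, y, hy, rfl⟩ := mem_add.mp hz
      obtain ⟨b, hb, rfl⟩ := mem_image.mp hx
      obtain ⟨c, hc, rfl⟩ := mem_image.mp hy
      exact mem_image.mpr ⟨b + c, add_mem_add hb hc, by simp⟩
    · intro hz
      obtain ⟨x, hx, rfl⟩ := mem_image.mp hz
      obtain ⟨b, hb, c, hc, rfl⟩ := mem_add.mp hx
      exact mem_add.mpr ⟨_, mem_image_of_mem _ hb, _, mem_image_of_mem _ hc, by simp⟩
  rw [h, card_image_cast]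

lemma sumset_graph (D : Finset ℕ) (a : ℕ → ℕ) :
    #(graph D a + graph D a) ≤ #(sumset D a) := by
  have h1 : graph D a + graph D a ⊆ (sumset D a).image
      fun q : ℕ × ℕ => ((q.1 : ℤ), (q.2 : ℤ)) := by
    intro v hv
    obtain ⟨x, hx, y, hy, rfl⟩ := mem_add.mp hv
    rw [graph, mem_image] at hx hy
    obtain ⟨d, hd, rfl⟩ := hx
    obtain ⟨e, he, rfl⟩ := hy
    rw [mem_image]
    exact ⟨(d + e, a d + a e), mem_image.mpr ⟨(d, e), mem_product.mpr ⟨hd, he⟩, rfl⟩, by simp⟩
  exact (card_le_card h1).trans card_image_le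

/-- All slices of a graph of small doubling have small doubling. -/
theorem slices (D : Finset ℕ) (hD : D.Nonempty) (a : ℕ → ℕ) (L : ℕ)
    (hL : #(sumset D a) ≤ L * #D) (j : ℕ) :
    #((D.image fun d => a d + j * d) + (D.image fun d => a d + j * d)) ≤
      L ^ 3 * #(D.image fun d => a d + j * d) := by
  have hG : 0 < #(graph D a) := by rw [card_graph]; exact card_pos.mpr hD
  have h2 : #(graph D a + graph D a) ≤ L * #(graph D a) := by
    rw [card_graph]
    exact (sumset_graph D a).trans hL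
  have h3 := proj_doubling (graph D a) hG L (pow_of_add _ (card_pos.mp hG) L h2) (proj j)
  rwa [image_proj, card_image_add, card_image_cast] at h3

end Pool.Agent.H43.AP
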