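import Pool.Agent.H43.AP.Main
import Pool.Agent.H43.AP.Converse
import Pool.Agent.H43.AP.Back
import Pool.Agent.H43.AK.Sharp

/-!
# Summary
-/

namespace Pool.Agent.H43.AP

open Finset
open scoped Pointwise
open Pool.Agent.H43.AK

/-- **Each structured slice adds one to `1 / (1 - exponent)`.** -/
theorem mixed_iff (J Q : Finset ℕ) (hJ : J.Nonempty) (hQ : Q.Nonempty) (hJQ : Disjoint J Q)
    (u v : ℕ) (hv : 1 ≤ v) (hvu : v ≤ u) :
    (Admissible Q u v → MixedBound J Q u v) ∧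
    (MixedBound J Q u v →
      MixedAdmissible J Q (u + #J * (u - v)) (u + (#J - 1) * (u - v))) ∧
    (MixedAdmissible J Q (u + #J * (u - v)) (u + (#J - 1) * (u - v)) → Admissible Q u v) :=
  ⟨mixed_bound J Q hJ hJQ u v hv hvu, MixedBound.admissible,
    converse J Q hJ hQ hJQ u v hv hvu⟩

/-- Two free slices. -/
theorem mixed_two (J Q : Finset ℕ) (hJ : J.Nonempty) (hQ : 2 ≤ #Q) (hJQ : Disjoint J Q) :
    ∃ C : ℕ, ∀ (D : Finset ℕ) (a : ℕ → ℕ) (A : Finset ℕ) (B : ℕ → Finset ℕ) (K : ℕ),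
      D.Nonempty → 1 ≤ K → (∀ d ∈ D, ∀ j ∈ Q, a d + j * d ∈ A) →
      (∀ j ∈ J, ∀ d ∈ D, a d + j * d ∈ B j) → (∀ j ∈ J, #(B j + B j) ≤ K * #(B j)) →
      #D ^ (#J + 1) ≤ C * K ^ C * (∏ j ∈ J, #(B j)) * #A ^ 2 := by
  obtain ⟨C, hC⟩ := mixed_bound J Q hJ hJQ 2 1 le_rfl (by norm_num) (admissible_two hQ)
  refine ⟨C, fun D a A B K hD hK hA hB hB' => ?_⟩
  have h1 := hC D a A B K hD hK hA hB hB'
  have hJ1 : 1 ≤ #J := card_pos.mpr hJ
  have h6 : 2 + (#J - 1) * (2 - 1) = #J + 1 := by omega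
  rw [h6] at h1
  simpa using h1

/-- The digit example: all slices are structured. -/
theorem sharp_structured (k : ℕ) (hk : 0 < k) : ∃ C : ℕ, ∀ N : ℕ, 0 < N →
    ∃ (a : ℕ → ℕ) (A : Finset ℕ), Contains k (Icc 1 N) a A ∧
      Structured (range k) C (Icc 1 N) a A ∧
      #(sumset (Icc 1 N) a) ≤ C * N ∧ N ^ 3 ≤ C * quadruples (Icc 1 N) a ∧
      #A ^ k ≤ C * N ^ (k - 1) := by
  classical
  obtain ⟨C, hC⟩ := sharp k hk
  refine ⟨C ^ 3 + C + 1, ?_⟩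
  intro N hN
  obtain ⟨a, A, h1, h2, h3, h4⟩ := hC N hN
  refine ⟨a, A, h1, ?_, h2.trans (Nat.mul_le_mul_right _ (by omega)),
    h3.trans (Nat.mul_le_mul_right _ (by omega)), h4.trans (Nat.mul_le_mul_right _ (by omega))⟩
  intro j hj
  have hD : (Icc 1 N).Nonempty := ⟨1, mem_Icc.mpr ⟨le_rfl, hN⟩⟩
  have h2' : #(sumset (Icc 1 N) a) ≤ C * #(Icc 1 N) := by
    rwa [Nat.card_Icc, Nat.add_sub_cancel]
  have h5 := slices (Icc 1 N) hD a C h2' j
  refine ⟨(Icc 1 N).image fun d => a d + j * d, fun d hd => mem_image_of_mem _ hd, ?_,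
    h5.trans (Nat.mul_le_mul_right _ (by omega))⟩
  have h6 : (Icc 1 N).image (fun d => a d + j * d) ⊆ A := by
    intro z hz
    obtain ⟨d, hd, rfl⟩ := mem_image.mp hz
    exact h1 d hd j (mem_range.mp hj)
  exact (card_le_card h6).trans (Nat.le_mul_of_pos_left _ (by omega))

end Pool.Agent.H43.AP
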