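import Pool.Agent.H43.AP.Struct

/-!
# The group-like sets `Γ_c` and `I_c`
-/

namespace Pool.Agent.H43.AP

open Finset
open scoped Pointwise

variable {r : ℕ}

/-- `I_c`: the integers in all the sets `c B_j - c B_j`; `j0` is any index. -/
def II (B : Fin r → Finset ℤ) (j0 : Fin r) (c : ℕ) : Finset ℤ :=
  {z ∈ SS (B j0) c | ∀ j, z ∈ SS (B j) c}

lemma mem_II {B : Fin r → Finset ℤ} {j0 : Fin r} {c : ℕ} {z : ℤ} :
    z ∈ II B j0 c ↔ ∀ j, z ∈ SS (B j) c := by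
  rw [II, mem_filter]
  exact ⟨fun h => h.2, fun h => ⟨h j0, h⟩⟩

/-- `Γ_c`: the points of the plane with all projections `y + n_j x` in `c B_j - c B_j`. -/
def Gam (n : Fin r → ℕ) (B : Fin r → Finset ℤ) (j0 j1 : Fin r) (c : ℕ) : Finset (ℤ × ℤ) :=
  {v ∈ (SS (B j0) c ×ˢ SS (B j1) c).image (fun s : ℤ × ℤ =>
    ((s.2 - s.1) / ((n j1 : ℤ) - n j0), s.1 - n j0 * ((s.2 - s.1) / ((n j1 : ℤ) - n j0)))) |
    ∀ j, v.2 + (n j : ℤ) * v.1 ∈ SS (B j) c}

lemma mem_Gam {n : Fin r → ℕ} (hn : Function.Injective n) {B : Fin r → Finset ℤ}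
    {j0 j1 : Fin r} (h01 : j0 ≠ j1) {c : ℕ} {v : ℤ × ℤ} :
    v ∈ Gam n B j0 j1 c ↔ ∀ j, v.2 + (n j : ℤ) * v.1 ∈ SS (B j) c := by
  rw [Gam, mem_filter]
  refine ⟨fun h => h.2, fun h => ⟨?_, h⟩⟩
  rw [mem_image]
  refine ⟨(v.2 + (n j0 : ℤ) * v.1, v.2 + (n j1 : ℤ) * v.1), ?_, ?_⟩
  · rw [mem_product]
    exact ⟨h j0, h j1⟩
  · have hne : ((n j1 : ℤ) - n j0) ≠ 0 := by
      intro h0
      have : (n j1 : ℤ) = n j0 := by linarith
      exact h01 (hn (by exact_mod_cast this.symm))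
    have h1 : (v.2 + (n j1 : ℤ) * v.1 - (v.2 + (n j0 : ℤ) * v.1)) / ((n j1 : ℤ) - n j0) = v.1 := by
      have : v.2 + (n j1 : ℤ) * v.1 - (v.2 + (n j0 : ℤ) * v.1) = ((n j1 : ℤ) - n j0) * v.1 := by
        ring
      rw [this, Int.mul_ediv_cancel_left _ hne]
    simp only
    rw [h1]
    ext
    · rfl
    · simp

variable {n : Fin r → ℕ} (hn : Function.Injective n) {B : Fin r → Finset ℤ}
  {j0 j1 : Fin r} (h01 : j0 ≠ j1) (hB : ∀ j, (B j).Nonempty) {K : ℕ}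
  (hK : ∀ j, #(B j + B j) ≤ K * #(B j))

include hn h01 hB hK in
/-- Growth of `Γ_c`. -/
lemma Gam_growth (c : ℕ) :
    #(Gam n B j0 j1 c) ≤ #(Gam n B j0 j1 2) * (K ^ (2 * c + 1)) ^ r := by
  classical
  have hcov : ∀ j, ∃ F : Finset ℤ, #F ≤ K ^ (2 * c + 1) ∧
      ∀ x ∈ SS (B j) c, ∃ t ∈ F, x - t ∈ SS (B j) 1 := fun j => covering (hB j) (hK j) c
  choose F hF ht using hcov
  have ht' : ∀ j x, ∃ t, x ∈ SS (B j) c → t ∈ F j ∧ x - t ∈ SS (B j) 1 := by
    intro j x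
    by_cases hx : x ∈ SS (B j) c
    · obtain ⟨t, h1, h2⟩ := ht j x hx
      exact ⟨t, fun _ => ⟨h1, h2⟩⟩
    · exact ⟨0, fun h => absurd h hx⟩
  choose t ht2 using ht'
  set τ : ℤ × ℤ → (Fin r → ℤ) := fun v j => t j (v.2 + (n j : ℤ) * v.1) with hτ
  have h1 : #(Gam n B j0 j1 c) ≤ #(Gam n B j0 j1 2) * #((Gam n B j0 j1 c).image τ) := by
    apply card_le_mul_card_image
    intro b hb
    obtain ⟨v0, hv0, rfl⟩ := mem_image.mp hb
    apply card_le_card_of_injOn (fun v => v - v0)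
    · intro v hv
      rw [mem_coe, mem_filter] at hv
      obtain ⟨hv1, hv2⟩ := hv
      rw [mem_coe, mem_Gam hn h01]
      intro j
      rw [mem_Gam hn h01] at hv1 hv0
      have e1 := (ht2 j _ (hv1 j)).2
      have e2 := (ht2 j _ (hv0 j)).2
      have e3 : t j (v.2 + (n j : ℤ) * v.1) = t j (v0.2 + (n j : ℤ) * v0.1) := congrFun hv2 j
      rw [e3] at e1
      have e4 := SS_sub e1 e2
      have e5 : (v - v0).2 + (n j : ℤ) * (v - v0).1 =
          v.2 + (n j : ℤ) * v.1 - t j (v0.2 + (n j : ℤ) * v0.1) -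
          (v0.2 + (n j : ℤ) * v0.1 - t j (v0.2 + (n j : ℤ) * v0.1)) := by
        simp only [Prod.snd_sub, Prod.fst_sub]; ring
      rw [e5]
      exact e4
    · intro v _ v' _ h
      exact sub_left_injective h
  have h2 : (Gam n B j0 j1 c).image τ ⊆ Fintype.piFinset F := by
    intro b hb
    obtain ⟨v, hv, rfl⟩ := mem_image.mp hb
    rw [Fintype.mem_piFinset]
    intro j
    rw [mem_Gam hn h01] at hv
    exact (ht2 j _ (hv j)).1
  have h3 : #(Fintype.piFinset F) ≤ (K ^ (2 * c + 1)) ^ r := by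
    rw [Fintype.card_piFinset]
    calc ∏ j, #(F j) ≤ ∏ _j : Fin r, K ^ (2 * c + 1) := prod_le_prod' fun j _ => hF j
      _ = _ := by simp
  exact h1.trans (Nat.mul_le_mul_left _ ((card_le_card h2).trans h3))

include hn h01 in
/-- A graph thickened by `I_c`. -/
lemma thick (G : Finset (ℤ × ℤ)) (hinj : Set.InjOn Prod.fst (G : Set (ℤ × ℤ)))
    (hG : ∀ g ∈ G, ∀ j, g.2 + (n j : ℤ) * g.1 ∈ B j) (hne : G.Nonempty) (c : ℕ) :
    #G * #(II B j0 c) ≤ #(Gam n B j0 j1 (c + 1)) := by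
  obtain ⟨g0, hg0⟩ := hne
  rw [← card_product]
  apply card_le_card_of_injOn
    (fun p : (ℤ × ℤ) × ℤ => (p.1.1 - g0.1, p.1.2 - g0.2 + p.2))
  · intro p hp
    rw [mem_coe, mem_product] at hp
    rw [mem_coe, mem_Gam hn h01]
    intro j
    have e1 : (p.1.2 - g0.2 + p.2) + (n j : ℤ) * (p.1.1 - g0.1) =
        p.2 + ((p.1.2 + (n j : ℤ) * p.1.1) - (g0.2 + (n j : ℤ) * g0.1)) := by ring
    simp only
    rw [e1]
    exact SS_add (mem_II.mp hp.2 j) (mem_SS_one (hG _ hp.1 j) (hG _ hg0 j))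
  · rintro ⟨g, z⟩ hp ⟨g', z'⟩ hp' h
    rw [mem_coe, mem_product] at hp hp'
    simp only [Prod.mk.injEq] at h
    have e1 : g = g' := hinj hp.1 hp'.1 (by linarith [h.1])
    subst e1
    have e2 : z = z' := by linarith [h.2]
    rw [e2]

/-- The first coordinates of the elements of `Γ_4` with `y + n_j x = 0`. -/
def Ex (n : Fin r → ℕ) (B : Fin r → Finset ℤ) (j0 j1 : Fin r) (j : Fin r) : Finset ℤ :=
  {v ∈ Gam n B j0 j1 4 | v.2 + (n j : ℤ) * v.1 = 0}.image Prod.fst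

include hn h01 in
lemma mem_Ex {j : Fin r} {x : ℤ} (hx : x ∈ Ex n B j0 j1 j) (l : Fin r) :
    ((n l : ℤ) - n j) * x ∈ SS (B l) 4 := by
  rw [Ex, mem_image] at hx
  obtain ⟨v, hv, rfl⟩ := hx
  rw [mem_filter, mem_Gam hn h01] at hv
  have e : ((n l : ℤ) - n j) * v.1 = v.2 + (n l : ℤ) * v.1 := by linarith [hv.2]
  rw [e]
  exact hv.1 l

include hn h01 in
lemma card_Ex (j : Fin r) : #(Gam n B j0 j1 2) ≤ #(Ex n B j0 j1 j) * #(SS (B j) 2) := by
  have h1 : #(Gam n B j0 j1 2) ≤ #(Ex n B j0 j1 j) *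
      #((Gam n B j0 j1 2).image fun v => v.2 + (n j : ℤ) * v.1) := by
    apply card_le_mul_card_image
    intro b hb
    obtain ⟨v0, hv0, rfl⟩ := mem_image.mp hb
    apply card_le_card_of_injOn (fun v => v.1 - v0.1)
    · intro v hv
      rw [mem_coe, mem_filter] at hv
      obtain ⟨hv1, hv2⟩ := hv
      rw [mem_coe, Ex, mem_image]
      refine ⟨v - v0, ?_, rfl⟩
      rw [mem_filter, mem_Gam hn h01]
      constructor
      · intro l
        rw [mem_Gam hn h01] at hv1 hv0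
        have e : (v - v0).2 + (n l : ℤ) * (v - v0).1 =
            (v.2 + (n l : ℤ) * v.1) - (v0.2 + (n l : ℤ) * v0.1) := by
          simp only [Prod.snd_sub, Prod.fst_sub]; ring
        have e4 : (v.2 + (n l : ℤ) * v.1) - (v0.2 + (n l : ℤ) * v0.1) ∈ SS (B l) (2 + 2) :=
          SS_sub (hv1 l) (hv0 l)
        rw [e]
        exact e4
      · simp only [Prod.snd_sub, Prod.fst_sub]
        linarith [hv2]
    · intro v hv v' hv' h
      rw [mem_coe, mem_filter] at hv hv'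
      have e1 : v.1 = v'.1 := by
        have : v.1 - v0.1 = v'.1 - v0.1 := h
        linarith
      have e2 : v.2 + (n j : ℤ) * v.1 = v'.2 + (n j : ℤ) * v'.1 := hv.2.trans hv'.2.symm
      rw [e1] at e2
      ext
      · exact e1
      · linarith
  refine h1.trans (Nat.mul_le_mul_left _ (card_le_card ?_))
  intro x hx
  obtain ⟨v, hv, rfl⟩ := mem_image.mp hx
  rw [mem_Gam hn h01] at hv
  exact hv j

end Pool.Agent.H43.AP
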