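import Pool.Agent.H43.AP.Product
import Pool.Agent.H43.AP.Defs

/-!
# Products over intervals

The same products in mixed radix, so that a graph over `0 ≤ d < n` gives a graph over
`0 ≤ d < n L ^ r`.
-/

namespace Pool.Agent.H43.AP

open Finset
open scoped Pointwise

lemma ker_add_cover (s l L : ℕ) : ∃ F : Finset ℕ, #F ≤ 2 ∧
    ker s l L + ker s l L ⊆ F + ker s l L := by
  classical
  refine ⟨{s * (L - 1), l * (L - 1)}, card_le_two, ?_⟩
  intro z hz
  obtain ⟨x, hx, y, hy, rfl⟩ := mem_add.mp hz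
  rw [ker, mem_image] at hx hy
  obtain ⟨t, ht, rfl⟩ := hx
  obtain ⟨t', ht', rfl⟩ := hy
  rw [mem_range] at ht ht'
  rw [mem_add]
  rcases Nat.lt_or_ge (t + t') L with h | h
  · refine ⟨s * (L - 1), by simp, s * (L - 1 - (t + t')) + l * (t + t'), ?_, ?_⟩
    · rw [ker, mem_image]
      exact ⟨t + t', mem_range.mpr h, rfl⟩
    · have e : (L - 1) + (L - 1 - (t + t')) = (L - 1 - t) + (L - 1 - t') := by omega
      calc s * (L - 1) + (s * (L - 1 - (t + t')) + l * (t + t'))
          = s * ((L - 1) + (L - 1 - (t + t'))) + l * (t + t') := by ring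
        _ = _ := by rw [e]; ring
  · refine ⟨l * (L - 1), by simp,
      s * (L - 1 - (t + t' - (L - 1))) + l * (t + t' - (L - 1)), ?_, ?_⟩
    · rw [ker, mem_image]
      exact ⟨t + t' - (L - 1), mem_range.mpr (by omega), rfl⟩
    · have e : L - 1 - (t + t' - (L - 1)) = (L - 1 - t) + (L - 1 - t') := by omega
      have e' : (L - 1) + (t + t' - (L - 1)) = t + t' := by omega
      calc l * (L - 1) + (s * (L - 1 - (t + t' - (L - 1))) + l * (t + t' - (L - 1)))
          = s * (L - 1 - (t + t' - (L - 1))) + l * ((L - 1) + (t + t' - (L - 1))) := by ring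
        _ = _ := by rw [e, e']; ring

lemma enc_add_cover {b : ℕ} {B W F F' : Finset ℕ} (h : B + B ⊆ F + B) (h' : W + W ⊆ F' + W) :
    enc b B W + enc b B W ⊆ enc b F F' + enc b B W := by
  intro x hx
  obtain ⟨y, hy, z, hz, rfl⟩ := mem_add.mp hx
  rw [enc, mem_image] at hy hz
  obtain ⟨p, hp, rfl⟩ := hy
  obtain ⟨q, hq, rfl⟩ := hz
  rw [mem_product] at hp hq
  obtain ⟨f, hf, c, hc, e1⟩ := mem_add.mp (h (add_mem_add hp.1 hq.1))
  obtain ⟨f', hf', c', hc', e2⟩ := mem_add.mp (h' (add_mem_add hp.2 hq.2))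
  refine mem_add.mpr ⟨f + b * f', mem_image.mpr ⟨(f, f'), mem_product.mpr ⟨hf, hf'⟩, rfl⟩,
    c + b * c', mem_image.mpr ⟨(c, c'), mem_product.mpr ⟨hc, hc'⟩, rfl⟩, ?_⟩
  calc f + b * f' + (c + b * c') = (f + c) + b * (f' + c') := by ring
    _ = (p.1 + q.1) + b * (p.2 + q.2) := by rw [e1, e2]
    _ = _ := by ring

/-- A graph over `0 ≤ d < n L ^ |S|` whose slices of slopes `l ∈ T` lie in sets of at most
`β l L ^ |S - l|` elements, with the sumset covered by `γ l 2 ^ |S|` translates. -/
def IConf (T S : Finset ℕ) (L n : ℕ) (β γ : ℕ → ℕ) : Prop :=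
  ∃ (a : ℕ → ℕ) (B : ℕ → Finset ℕ), ∀ l ∈ T, (∀ d < n * L ^ #S, a d + l * d ∈ B l) ∧
    #(B l) ≤ β l * L ^ #(S.erase l) ∧
      ∃ F : Finset ℕ, #F ≤ γ l * 2 ^ #S ∧ B l + B l ⊆ F + B l

lemma IConf.step {T S : Finset ℕ} {L n : ℕ} {β γ : ℕ → ℕ} (h : IConf T S L n β γ) (hL : 0 < L)
    (hn : 0 < n) {s : ℕ} (hs : s ∉ S) : IConf T (insert s S) L n β γ := by
  classical
  obtain ⟨a, B, hB⟩ := h
  set b := n * L ^ #S with hb
  have hb0 : 0 < b := Nat.mul_pos hn (Nat.pow_pos hL)
  refine ⟨fun d => a (d % b) + b * (s * (L - 1 - d / b)),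
    fun l => enc b (B l) (ker s l L), ?_⟩
  intro l hl
  obtain ⟨h1, h2, F, h3, h4⟩ := hB l hl
  have hc : L ^ #((insert s S).erase l) = L ^ #(S.erase l) * #(ker s l L) := by
    by_cases hls : l = s
    · subst hls
      rw [erase_insert hs, erase_eq_of_notMem hs, card_ker_self hL, mul_one]
    · rw [erase_insert_of_ne (Ne.symm hls), card_ker_ne hls,
        card_insert_of_notMem (fun h => hs (mem_of_mem_erase h)), pow_succ]
  have hbL : n * L ^ #(insert s S) = b * L := by
    rw [card_insert_of_notMem hs, pow_succ, hb]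
    ring
  refine ⟨?_, ?_, ?_⟩
  · intro d hd
    rw [hbL] at hd
    have e1 : d % b < b := Nat.mod_lt _ hb0
    have e2 : d / b < L := (Nat.div_lt_iff_lt_mul hb0).mpr (by rwa [mul_comm] at hd)
    have e3 := h1 (d % b) e1
    show a (d % b) + b * (s * (L - 1 - d / b)) + l * d ∈ enc b (B l) (ker s l L)
    rw [enc, mem_image]
    refine ⟨(a (d % b) + l * (d % b), s * (L - 1 - d / b) + l * (d / b)),
      mem_product.mpr ⟨e3, ?_⟩, ?_⟩
    · rw [ker, mem_image]
      exact ⟨d / b, mem_range.mpr e2, rfl⟩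
    · have e4 : d % b + b * (d / b) = d := Nat.mod_add_div d b
      calc a (d % b) + l * (d % b) + b * (s * (L - 1 - d / b) + l * (d / b))
          = a (d % b) + b * (s * (L - 1 - d / b)) + l * (d % b + b * (d / b)) := by ring
        _ = _ := by rw [e4]
  · calc #(enc b (B l) (ker s l L)) ≤ #(B l) * #(ker s l L) := by
          rw [← card_product]
          exact card_image_le
      _ ≤ (β l * L ^ #(S.erase l)) * #(ker s l L) := Nat.mul_le_mul_right _ h2
      _ = _ := by rw [hc]; ring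
  · obtain ⟨F', h5, h6⟩ := ker_add_cover s l L
    refine ⟨enc b F F', ?_, enc_add_cover h4 h6⟩
    calc #(enc b F F') ≤ #F * #F' := by
          rw [← card_product]
          exact card_image_le
      _ ≤ (γ l * 2 ^ #S) * 2 := Nat.mul_le_mul h3 h5
      _ = _ := by rw [card_insert_of_notMem hs, pow_succ]; ring

lemma IConf.all {T : Finset ℕ} {L n : ℕ} {β γ : ℕ → ℕ} (h : IConf T ∅ L n β γ) (hL : 0 < L)
    (hn : 0 < n) (S : Finset ℕ) : IConf T S L n β γ := by
  classical
  induction S using Finset.induction_on with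
  | empty => exact h
  | insert s S hs ih => exact ih.step hL hn hs

lemma range_add_cover (m : ℕ) : ∃ F : Finset ℕ, #F ≤ 2 ∧
    range m + range m ⊆ F + range m := by
  classical
  refine ⟨{0, m - 1}, card_le_two, ?_⟩
  intro z hz
  obtain ⟨x, hx, y, hy, rfl⟩ := mem_add.mp hz
  rw [mem_range] at hx hy
  rw [mem_add]
  rcases Nat.lt_or_ge (x + y) m with h | h
  · exact ⟨0, by simp, x + y, mem_range.mpr h, by ring⟩
  · exact ⟨m - 1, by simp, x + y - (m - 1), mem_range.mpr (by omega), by omega⟩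

/-- From a graph over `0 ≤ d < N` in a box to a graph over `0 ≤ d < N L ^ r` whose first `r` slices
are structured. -/
theorem interval_product (r k N L x : ℕ) (hr : 0 < r) (hrk : r ≤ k) (hN : 0 < N) (hL : 0 < L)
    (hNL : N ≤ x * L) (a : ℕ → ℕ) (A : Finset ℕ) (hA : ∀ d < N, ∀ j < k, a d + j * d ∈ A)
    (ha : ∀ d < N, a d ≤ (k + 1) * N) :
    ∃ (a1 : ℕ → ℕ) (A1 : Finset ℕ), (∀ d < N * L ^ r, ∀ j < k, a1 d + j * d ∈ A1) ∧
      #A1 ≤ k * ((#A + (2 * k + 1) * x) * L ^ r) + x * L ^ r ∧
      ∀ D ⊆ range (N * L ^ r), Structured (range r) (2 ^ (r + 1) + (2 * k + 1)) D a1 A1 := by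
  classical
  have hbase : IConf (range k) ∅ L N (fun l => if l ∈ range r then (k + l + 2) * N else #A)
      (fun l => if l ∈ range r then 2 else #A) := by
    refine ⟨a, fun l => if l ∈ range r then range ((k + l + 2) * N) else A, ?_⟩
    intro l hl
    by_cases hlJ : l ∈ range r
    · simp only [hlJ, if_true]
      refine ⟨?_, by simp, ?_⟩
      · intro d hd
        rw [card_empty, pow_zero, mul_one] at hd
        have h1 := ha d hd
        have h2 : l * d ≤ l * N := Nat.mul_le_mul_left _ hd.le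
        rw [mem_range]
        calc a d + l * d ≤ (k + 1) * N + l * N := Nat.add_le_add h1 h2
          _ < (k + 1) * N + l * N + N := Nat.lt_add_of_pos_right hN
          _ = _ := by ring
      · obtain ⟨F, h1, h2⟩ := range_add_cover ((k + l + 2) * N)
        exact ⟨F, by simpa using h1, h2⟩
    · simp only [hlJ, if_false]
      refine ⟨?_, by simp, A, by simp, Subset.rfl⟩
      intro d hd
      rw [card_empty, pow_zero, mul_one] at hd
      exact hA d hd l (mem_range.mp hl)
  obtain ⟨a1, B, hB⟩ := hbase.all hL hN (range r)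
  rw [card_range] at hB
  have hrr : L * L ^ (r - 1) = L ^ r := by
    rw [← pow_succ']
    congr 1
    omega
  have h2 : N * L ^ (r - 1) ≤ x * L ^ r := by
    calc N * L ^ (r - 1) ≤ (x * L) * L ^ (r - 1) := Nat.mul_le_mul_right _ hNL
      _ = x * L ^ r := by rw [mul_assoc, hrr]
  have hsz : ∀ l < r, #(B l) ≤ (2 * k + 1) * (N * L ^ (r - 1)) := by
    intro l hl
    have h3 := (hB l (mem_range.mpr (by omega))).2.1
    have h4 : l ∈ range r := mem_range.mpr hl
    have h5 : #((range r).erase l) = r - 1 := by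
      rw [card_erase_of_mem h4, card_range]
    rw [h5] at h3
    simp only [h4, if_true] at h3
    calc #(B l) ≤ (k + l + 2) * N * L ^ (r - 1) := h3
      _ = (k + l + 2) * (N * L ^ (r - 1)) := by ring
      _ ≤ _ := Nat.mul_le_mul_right _ (by omega)
  refine ⟨a1, (range k).biUnion B ∪ range (N * L ^ (r - 1)), ?_, ?_, ?_⟩
  · intro d hd j hj
    exact mem_union_left _ (mem_biUnion.mpr ⟨j, mem_range.mpr hj,
      (hB j (mem_range.mpr hj)).1 d hd⟩)
  · have h1 : #((range k).biUnion B) ≤ k * ((#A + (2 * k + 1) * x) * L ^ r) := by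
      have h3 := card_biUnion_le_card_mul (range k) B ((#A + (2 * k + 1) * x) * L ^ r) ?_
      · rwa [card_range] at h3
      intro q hq
      by_cases hqJ : q < r
      · calc #(B q) ≤ (2 * k + 1) * (N * L ^ (r - 1)) := hsz q hqJ
          _ ≤ (2 * k + 1) * (x * L ^ r) := Nat.mul_le_mul_left _ h2
          _ ≤ (2 * k + 1) * (x * L ^ r) + #A * L ^ r := Nat.le_add_right _ _
          _ = _ := by ring
      · have hqJ' : q ∉ range r := fun h => hqJ (mem_range.mp h)
        have h4 := (hB q hq).2.1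
        simp only [hqJ', if_false] at h4
        rw [erase_eq_of_notMem hqJ', card_range] at h4
        calc #(B q) ≤ #A * L ^ r := h4
          _ ≤ #A * L ^ r + (2 * k + 1) * x * L ^ r := Nat.le_add_right _ _
          _ = _ := by ring
    calc #((range k).biUnion B ∪ range (N * L ^ (r - 1)))
        ≤ #((range k).biUnion B) + #(range (N * L ^ (r - 1))) := card_union_le _ _
      _ ≤ _ := by
          rw [card_range]
          exact Nat.add_le_add h1 h2
  · intro D hD j hj
    have hjr := mem_range.mp hj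
    obtain ⟨h3, -, F, h4, h5⟩ := hB j (mem_range.mpr (by omega))
    simp only [hj, if_true] at h4
    refine ⟨B j, fun d hd => h3 d (mem_range.mp (hD hd)), ?_, ?_⟩
    · have h6 : N * L ^ (r - 1) ≤ #((range k).biUnion B ∪ range (N * L ^ (r - 1))) := by
        have := card_le_card (subset_union_right (s₁ := (range k).biUnion B)
          (s₂ := range (N * L ^ (r - 1))))
        rwa [card_range] at this
      calc #(B j) ≤ (2 * k + 1) * (N * L ^ (r - 1)) := hsz j hjr
        _ ≤ _ := Nat.mul_le_mul (Nat.le_add_left _ _) h6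
    · calc #(B j + B j) ≤ #(F + B j) := card_le_card h5
        _ ≤ #F * #(B j) := card_add_le
        _ ≤ (2 * 2 ^ r) * #(B j) := Nat.mul_le_mul_right _ h4
        _ = 2 ^ (r + 1) * #(B j) := by rw [pow_succ]; ring
        _ ≤ _ := Nat.mul_le_mul_right _ (Nat.le_add_right _ _)

end Pool.Agent.H43.AP
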