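import Pool.Agent.H43.AP.Gamma

/-!
# Tuples of points in the kernels of the projections
-/

namespace Pool.Agent.H43.AP

open Finset
open scoped Pointwise

variable {r : ℕ}

/-- The moments of a tuple. -/
def mom (n : Fin r → ℕ) (i : ℕ) (x : Fin r → ℤ) : ℤ := ∑ j, (n j : ℤ) ^ i * x j

/-- The moments of the slopes. -/
def mm (n : Fin r → ℕ) (i : ℕ) : ℕ := ∑ j, (n j) ^ i

/-- The number of tuples of the first `m` moments. -/
def cnt (n : Fin r → ℕ) (X : Finset (Fin r → ℤ)) (m : ℕ) : ℕ :=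
  #(X.image fun x => fun i : Fin m => mom n i x)

lemma SS_sum {ι : Type*} {B : Finset ℤ} (hB : B.Nonempty) (s : Finset ι) (c : ι → ℕ) (y : ι → ℤ)
    (h : ∀ i ∈ s, y i ∈ SS B (c i)) : ∑ i ∈ s, y i ∈ SS B (∑ i ∈ s, c i) := by
  classical
  induction s using Finset.induction_on with
  | empty => simpa using zero_mem_SS hB 0
  | insert a s ha ih =>
    rw [sum_insert ha, sum_insert ha]
    exact SS_add (h a (mem_insert_self a s)) (ih fun j hj => h j (mem_insert_of_mem hj))

section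

variable {n : Fin r → ℕ} (hn : Function.Injective n) {B : Fin r → Finset ℤ}
  {j0 j1 : Fin r} (h01 : j0 ≠ j1) (hB : ∀ j, (B j).Nonempty)

include hn h01 hB in
lemma mom_proj {x : Fin r → ℤ} (hx : ∀ j, x j ∈ Ex n B j0 j1 j) (i : ℕ) (l : Fin r) :
    (n l : ℤ) * mom n i x - mom n (i + 1) x ∈ SS (B l) (4 * mm n i) := by
  have h1 : (n l : ℤ) * mom n i x - mom n (i + 1) x =
      ∑ j, (((n j) ^ i : ℕ) : ℤ) * (((n l : ℤ) - n j) * x j) := by
    rw [mom, mom, mul_sum, ← sum_sub_distrib]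
    apply sum_congr rfl
    intro j _
    push_cast
    ring
  have h2 : 4 * mm n i = ∑ j, (n j) ^ i * 4 := by
    rw [mm, mul_sum]
    apply sum_congr rfl
    intro j _
    ring
  rw [h1, h2]
  apply SS_sum (hB l)
  intro j _
  exact SS_nat (hB l) _ (mem_Ex hn h01 (hx j) l)

include hn h01 hB in
lemma cnt_two : cnt n (Fintype.piFinset (Ex n B j0 j1)) 2 ≤ #(Gam n B j0 j1 (4 * r)) := by
  have hm : mm n 0 = r := by simp [mm]
  unfold cnt
  apply card_le_card_of_injOn (fun h => (h 0, -h 1))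
  · intro h hh
    obtain ⟨x, hx, rfl⟩ := mem_image.mp (mem_coe.mp hh)
    rw [mem_coe, mem_Gam hn h01]
    intro l
    have h1 := mom_proj hn h01 hB (Fintype.mem_piFinset.mp hx) 0 l
    rw [hm] at h1
    have e : (-mom n 1 x) + (n l : ℤ) * mom n 0 x =
        (n l : ℤ) * mom n 0 x - mom n (0 + 1) x := by
      rw [zero_add]; ring
    show (-mom n 1 x) + (n l : ℤ) * mom n 0 x ∈ SS (B l) (4 * r)
    rw [e]
    exact h1
  · intro h _ h' _ hhh
    simp only [Prod.mk.injEq] at hhh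
    funext i
    fin_cases i
    · exact hhh.1
    · show h 1 = h' 1
      linarith [hhh.2]

include hn h01 hB in
lemma cnt_succ (m C : ℕ) (hC : 8 * mm n m ≤ C) :
    cnt n (Fintype.piFinset (Ex n B j0 j1)) (m + 2) ≤
      #(II B j0 C) * cnt n (Fintype.piFinset (Ex n B j0 j1)) (m + 1) := by
  classical
  unfold cnt
  set X := Fintype.piFinset (Ex n B j0 j1) with hX
  set I2 := X.image fun x => fun i : Fin (m + 2) => mom n i x with hI2
  set I1 := X.image fun x => fun i : Fin (m + 1) => mom n i x with hI1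
  have h1 : I2.image (fun h => fun i : Fin (m + 1) => h i.castSucc) = I1 := by
    rw [hI2, hI1, image_image]
    rfl
  rw [← h1]
  apply card_le_mul_card_image
  intro b hb
  obtain ⟨h0, hh0, hb0⟩ := mem_image.mp hb
  rw [hI2, mem_image] at hh0
  obtain ⟨x0, hx0, hx0'⟩ := hh0
  apply card_le_card_of_injOn (fun h => h (Fin.last (m + 1)) - h0 (Fin.last (m + 1)))
  · intro h hh
    rw [mem_coe, mem_filter] at hh
    obtain ⟨hh1, hh2⟩ := hh
    rw [hI2, mem_image] at hh1
    obtain ⟨x, hx, hx'⟩ := hh1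
    rw [mem_coe, mem_II]
    intro l
    have e1 := mom_proj hn h01 hB (Fintype.mem_piFinset.mp hx) m l
    have e2 := mom_proj hn h01 hB (Fintype.mem_piFinset.mp hx0) m l
    have e3 : h (Fin.last m).castSucc = h0 (Fin.last m).castSucc :=
      congrFun (hh2.trans hb0.symm) (Fin.last m)
    have e4 : h (Fin.last m).castSucc = mom n m x := by rw [← hx']; rfl
    have e5 : h0 (Fin.last m).castSucc = mom n m x0 := by rw [← hx0']; rfl
    have e6 : h (Fin.last (m + 1)) = mom n (m + 1) x := by rw [← hx']; rfl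
    have e7 : h0 (Fin.last (m + 1)) = mom n (m + 1) x0 := by rw [← hx0']; rfl
    have e8 : mom n m x = mom n m x0 := by rw [← e4, ← e5, e3]
    show h (Fin.last (m + 1)) - h0 (Fin.last (m + 1)) ∈ SS (B l) C
    rw [e6, e7]
    have e9 := SS_sub e2 e1
    have e10 : (n l : ℤ) * mom n m x0 - mom n (m + 1) x0 -
        ((n l : ℤ) * mom n m x - mom n (m + 1) x) = mom n (m + 1) x - mom n (m + 1) x0 := by
      rw [e8]; ring
    rw [e10] at e9
    exact SS_mono (hB l) (by omega) e9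
  · intro h hh h' hh' hhh
    rw [mem_coe, mem_filter] at hh hh'
    have e1 : h (Fin.last (m + 1)) = h' (Fin.last (m + 1)) := sub_left_injective hhh
    funext i
    refine Fin.lastCases ?_ (fun i => ?_) i
    · exact e1
    · exact congrFun (hh.2.trans hh'.2.symm) i

include hn in
/-- The first `r` moments determine the tuple. -/
lemma card_le_cnt (X : Finset (Fin r → ℤ)) : #X ≤ cnt n X r := by
  unfold cnt
  rw [card_image_of_injOn]
  intro x _ x' _ h
  have h0 : (fun j : Fin r => x j - x' j) = 0 := by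
    apply Matrix.eq_zero_of_forall_pow_sum_mul_pow_eq_zero
      (f := fun j : Fin r => (n j : ℤ))
    · intro i j hij
      have hij' : (n i : ℤ) = (n j : ℤ) := hij
      exact hn (by exact_mod_cast hij')
    · intro i
      have h1 := congrFun h i
      simp only [mom] at h1
      have h2 : ∑ j : Fin r, (x j - x' j) * (n j : ℤ) ^ (i : ℕ) =
          (∑ j : Fin r, (n j : ℤ) ^ (i : ℕ) * x j) -
          ∑ j : Fin r, (n j : ℤ) ^ (i : ℕ) * x' j := by
        rw [← sum_sub_distrib]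
        apply sum_congr rfl
        intro j _
        ring
      rw [h2, h1, sub_self]
  funext j
  have := congrFun h0 j
  simpa [sub_eq_zero] using this

end

/-- **The structured slopes.** -/
theorem tuples (hr : 0 < r) {n : Fin r → ℕ} (hn : Function.Injective n) {B : Fin r → Finset ℤ}
    (hB : ∀ j, (B j).Nonempty) {K : ℕ} (hK : ∀ j, #(B j + B j) ≤ K * #(B j))
    (G : Finset (ℤ × ℤ)) (hinj : Set.InjOn Prod.fst (G : Set (ℤ × ℤ)))
    (hG : ∀ g ∈ G, ∀ j, g.2 + (n j : ℤ) * g.1 ∈ B j) (hne : G.Nonempty)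
    (C : ℕ) (hC : ∀ i < r, 8 * mm n i ≤ C) :
    #G ^ (r - 1) * #(II B ⟨0, hr⟩ C) ≤
      K ^ ((2 * C + 3) * r * (r - 1) + (8 * r + 1) * r + 4 * r + 2 * C) * ∏ j, #(B j) := by
  classical
  have hK1 : 1 ≤ K := by
    by_contra h
    have h0 : K = 0 := by omega
    have h1 := hK ⟨0, hr⟩
    rw [h0, zero_mul] at h1
    have h2 : 0 < #(B ⟨0, hr⟩ + B ⟨0, hr⟩) := card_pos.mpr ((hB _).add (hB _))
    omega
  have hIc : #(II B ⟨0, hr⟩ C) ≤ K ^ (2 * C) * #(B ⟨0, hr⟩) := by
    refine le_trans (card_le_card (filter_subset _ _)) ?_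
    exact SS_card (hB _) (hK _) C
  rcases Nat.lt_or_ge r 2 with hr2 | hr2
  · have : r = 1 := by omega
    subst this
    have hprod : ∏ j, #(B j) = #(B ⟨0, hr⟩) := by
      rw [Fin.prod_univ_one]
      rfl
    rw [hprod]
    simp only [Nat.sub_self, pow_zero, one_mul]
    refine hIc.trans (Nat.mul_le_mul_right _ (Nat.pow_le_pow_right hK1 ?_))
    omega
  set j0 : Fin r := ⟨0, hr⟩ with hj0
  set j1 : Fin r := ⟨1, hr2⟩ with hj1
  have h01 : j0 ≠ j1 := by
    intro h
    have := congrArg Fin.val h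
    simp [hj0, hj1] at this
  set I := #(II B j0 C) with hI
  have hI1 : 1 ≤ I := by
    apply card_pos.mpr
    exact ⟨0, mem_II.mpr fun j => zero_mem_SS (hB j) C⟩
  set Γ := #(Gam n B j0 j1 2) with hΓ
  have hΓ1 : 0 < Γ := by
    apply card_pos.mpr
    refine ⟨0, (mem_Gam hn h01).mpr fun j => ?_⟩
    simpa using zero_mem_SS (hB j) 2
  -- the number of tuples
  have hcnt : ∀ m : ℕ, m + 2 ≤ r → cnt n (Fintype.piFinset (Ex n B j0 j1)) (m + 2) ≤
      I ^ m * #(Gam n B j0 j1 (4 * r)) := by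
    intro m
    induction m with
    | zero =>
      intro _
      simpa using cnt_two hn h01 hB
    | succ m ih =>
      intro hm
      calc cnt n (Fintype.piFinset (Ex n B j0 j1)) (m + 1 + 2)
          ≤ I * cnt n (Fintype.piFinset (Ex n B j0 j1)) (m + 1 + 1) :=
            cnt_succ hn h01 hB (m + 1) C (hC _ (by omega))
        _ ≤ I * (I ^ m * #(Gam n B j0 j1 (4 * r))) := Nat.mul_le_mul_left _ (ih (by omega))
        _ = _ := by ring
  have hX : #(Fintype.piFinset (Ex n B j0 j1)) ≤ I ^ (r - 2) * #(Gam n B j0 j1 (4 * r)) := by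
    have h1 := hcnt (r - 2) (by omega)
    have h2 : r - 2 + 2 = r := by omega
    rw [h2] at h1
    exact (card_le_cnt hn _).trans h1
  have h4 : ∀ j, #(SS (B j) 2) ≤ K ^ 4 * #(B j) := fun j => SS_card (hB j) (hK j) 2
  obtain ⟨P, hP⟩ : ∃ P : ℕ, P = ∏ j, #(B j) := ⟨_, rfl⟩
  have h5 : Γ ^ r ≤ (K ^ 4) ^ r * P * #(Fintype.piFinset (Ex n B j0 j1)) := by
    calc Γ ^ r = ∏ _j : Fin r, Γ := by simp
      _ ≤ ∏ j : Fin r, (#(Ex n B j0 j1 j) * (K ^ 4 * #(B j))) :=
          prod_le_prod' fun j _ => (card_Ex hn h01 j).trans (Nat.mul_le_mul_left _ (h4 j))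
      _ = _ := by
          rw [prod_mul_distrib, prod_mul_distrib, Fintype.card_piFinset, hP, prod_const,
            card_univ, Fintype.card_fin]
          ring
  have h6 : #(Gam n B j0 j1 (4 * r)) ≤ Γ * (K ^ (2 * (4 * r) + 1)) ^ r :=
    Gam_growth hn h01 hB hK (4 * r)
  have h7 : Γ ^ (r - 1) ≤ K ^ ((8 * r + 1) * r + 4 * r) * P * I ^ (r - 2) := by
    have h8 : Γ ^ (r - 1) * Γ ≤ K ^ ((8 * r + 1) * r + 4 * r) * P * I ^ (r - 2) * Γ := by
      calc Γ ^ (r - 1) * Γ = Γ ^ r := by rw [← pow_succ]; congr 1; omega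
        _ ≤ (K ^ 4) ^ r * P * #(Fintype.piFinset (Ex n B j0 j1)) := h5
        _ ≤ (K ^ 4) ^ r * P * (I ^ (r - 2) * (Γ * (K ^ (2 * (4 * r) + 1)) ^ r)) :=
            Nat.mul_le_mul_left _ (hX.trans (Nat.mul_le_mul_left _ h6))
        _ = _ := by
            have h9 : K ^ ((8 * r + 1) * r + 4 * r) = (K ^ (2 * (4 * r) + 1)) ^ r * (K ^ 4) ^ r := by
              rw [← pow_mul, ← pow_mul, ← pow_add]
              congr 1
              ring
            rw [h9]
            ring
    exact Nat.le_of_mul_le_mul_right h8 hΓ1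
  -- thickening
  have h10 : #G * I ≤ Γ * (K ^ (2 * (C + 1) + 1)) ^ r :=
    (thick hn h01 G hinj hG hne C).trans (Gam_growth hn h01 hB hK (C + 1))
  have h11 : (#G * I) ^ (r - 1) ≤
      K ^ ((2 * C + 3) * r * (r - 1)) * (K ^ ((8 * r + 1) * r + 4 * r) * P * I ^ (r - 2)) := by
    calc (#G * I) ^ (r - 1) ≤ (Γ * (K ^ (2 * (C + 1) + 1)) ^ r) ^ (r - 1) :=
          Nat.pow_le_pow_left h10 _
      _ = K ^ ((2 * C + 3) * r * (r - 1)) * Γ ^ (r - 1) := by
          rw [mul_pow, ← pow_mul, ← pow_mul, mul_comm]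
          congr 2
          ring
      _ ≤ _ := Nat.mul_le_mul_left _ h7
  have h12 : #G ^ (r - 1) * I * I ^ (r - 2) ≤
      K ^ ((2 * C + 3) * r * (r - 1) + (8 * r + 1) * r + 4 * r) * P * I ^ (r - 2) := by
    calc #G ^ (r - 1) * I * I ^ (r - 2) = (#G * I) ^ (r - 1) := by
          have : r - 1 = r - 2 + 1 := by omega
          rw [mul_pow, this]
          ring
      _ ≤ _ := h11
      _ = _ := by
          rw [add_assoc ((2 * C + 3) * r * (r - 1)), pow_add]
          ring
  have h13 := Nat.le_of_mul_le_mul_right h12 (Nat.pow_pos hI1)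
  rw [← hP]
  refine h13.trans (Nat.mul_le_mul_right _ (Nat.pow_le_pow_right hK1 ?_))
  omega

end Pool.Agent.H43.AP
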