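import Pool.Agent.H43.AP.Defs
import Pool.Agent.H43.AP.Tuples
import Pool.Agent.H43.AP.Cells
import Pool.Agent.H43.AP.Doubling

/-!
# Structured and free slices
-/

namespace Pool.Agent.H43.AP

open Finset
open scoped Pointwise
open Pool.Agent.H43.AK

/-- The exponent of `K` in `tuples`. -/
def ex (r C : ℕ) : ℕ := (2 * C + 3) * r * (r - 1) + (8 * r + 1) * r + 4 * r + 2 * C

theorem main_int {r : ℕ} (hr : 0 < r) {n : Fin r → ℕ} (hn : Function.Injective n)
    {B : Fin r → Finset ℤ} (hB : ∀ j, (B j).Nonempty) {K : ℕ}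
    (hK : ∀ j, #(B j + B j) ≤ K * #(B j))
    (Q : Finset ℕ) (hQ : ∀ q ∈ Q, ∀ j, n j ≠ q) (C : ℕ) (hC2 : 2 ≤ C)
    (hC : ∀ i < r, 8 * mm n i ≤ C) (hCd : (dd n Q).natAbs ≤ C)
    (G : Finset (ℤ × ℤ)) (hinj : Set.InjOn Prod.fst (G : Set (ℤ × ℤ))) (hne : G.Nonempty)
    (hG : ∀ g ∈ G, ∀ j, g.2 + (n j : ℤ) * g.1 ∈ B j)
    (A : Finset ℤ) (hA : ∀ g ∈ G, ∀ q ∈ Q, g.2 + (q : ℤ) * g.1 ∈ A)
    (u v W : ℕ) (hu : 0 < u) (hvu : v ≤ u)
    (hfree : ∀ G' ⊆ G, ∀ A' : Finset ℤ, (∀ g ∈ G', ∀ q ∈ Q, g.2 + (q : ℤ) * g.1 ∈ A') →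
      #G' ^ v ≤ W * #A' ^ u) :
    #G ^ (u + (r - 1) * (u - v)) ≤
      W * #Q ^ u * K ^ (ex r C * (u - v) + (6 * C + 1) * r * u) * (∏ j, #(B j)) ^ (u - v) *
        #A ^ u := by
  have h1 := tuples hr hn hB hK G hinj hG hne C hC
  have h2 := cells n B ⟨0, hr⟩ hB hK Q hQ C hC2 hCd G hinj hG A hA u v W hu hvu hfree
  set I := #(II B ⟨0, hr⟩ C) with hI
  obtain ⟨P, hP⟩ : ∃ P : ℕ, P = ∏ j, #(B j) := ⟨_, rfl⟩
  rw [← hP] at h1 ⊢
  have h1' : #G ^ (r - 1) * I ≤ K ^ ex r C * P := h1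
  have h3 : (#G ^ (r - 1) * I) ^ (u - v) ≤ (K ^ ex r C * P) ^ (u - v) :=
    Nat.pow_le_pow_left h1' _
  calc #G ^ (u + (r - 1) * (u - v)) = #G ^ u * (#G ^ (r - 1)) ^ (u - v) := by
        rw [pow_add, pow_mul]
    _ ≤ (W * I ^ (u - v) * (#Q * K ^ ((6 * C + 1) * r) * #A) ^ u) *
          (#G ^ (r - 1)) ^ (u - v) := Nat.mul_le_mul_right _ h2
    _ = W * (#Q * K ^ ((6 * C + 1) * r) * #A) ^ u * (#G ^ (r - 1) * I) ^ (u - v) := by
        rw [mul_pow (#G ^ (r - 1)) I]; ring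
    _ ≤ W * (#Q * K ^ ((6 * C + 1) * r) * #A) ^ u * (K ^ ex r C * P) ^ (u - v) :=
        Nat.mul_le_mul_left _ h3
    _ = _ := by
        simp only [mul_pow, pow_add, pow_mul]
        ring

/-- The hypothesis on the free slopes, for subgraphs. -/
lemma free_graph {Q : Finset ℕ} {u v W : ℕ}
    (h : ∀ (D : Finset ℕ) (a : ℕ → ℕ) (A : Finset ℕ),
      (∀ d ∈ D, ∀ j ∈ Q, a d + j * d ∈ A) → #D ^ v ≤ W * #A ^ u)
    (D : Finset ℕ) (a : ℕ → ℕ) (G' : Finset (ℤ × ℤ)) (hG' : G' ⊆ graph D a) (A' : Finset ℤ)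
    (hA' : ∀ g ∈ G', ∀ q ∈ Q, g.2 + (q : ℤ) * g.1 ∈ A') : #G' ^ v ≤ W * #A' ^ u := by
  classical
  set D' : Finset ℕ := {d ∈ D | ((d : ℤ), (a d : ℤ)) ∈ G'} with hD'
  have h1 : G' = graph D' a := by
    ext g
    constructor
    · intro hg
      have h2 := hG' hg
      rw [graph, mem_image] at h2
      obtain ⟨d, hd, rfl⟩ := h2
      rw [graph, mem_image]
      exact ⟨d, mem_filter.mpr ⟨hd, hg⟩, rfl⟩
    · intro hg
      rw [graph, mem_image] at hg
      obtain ⟨d, hd, rfl⟩ := hg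
      exact (mem_filter.mp hd).2
  set A'' : Finset ℕ := A'.preimage (fun n : ℕ => (n : ℤ)) Nat.cast_injective.injOn with hA''
  have h2 : #A'' ≤ #A' := by
    rw [← card_image_cast A'']
    apply card_le_card
    intro z hz
    obtain ⟨x, hx, rfl⟩ := mem_image.mp hz
    exact mem_preimage.mp hx
  have h3 := h D' a A'' (by
    intro d hd j hj
    rw [hA'', mem_preimage]
    have := hA' _ (mem_filter.mp hd).2 j hj
    push_cast
    exact this)
  rw [h1, card_graph]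
  exact h3.trans (Nat.mul_le_mul_left _ (Nat.pow_le_pow_left h2 _))

/-- **Structured and free slices.** -/
theorem mixed_bound (J Q : Finset ℕ) (hJ : J.Nonempty) (hJQ : Disjoint J Q) (u v : ℕ)
    (hv : 1 ≤ v) (hvu : v ≤ u) (hQ : Admissible Q u v) : MixedBound J Q u v := by
  classical
  obtain ⟨W, hW⟩ := hQ
  obtain ⟨r, hr'⟩ : ∃ r : ℕ, r = #J := ⟨_, rfl⟩
  have hr : 0 < r := by rw [hr']; exact card_pos.mpr hJ
  set n : Fin r → ℕ := fun j => J.orderEmbOfFin hr'.symm j with hn'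
  have hn : Function.Injective n := (J.orderEmbOfFin hr'.symm).injective
  have hnJ : ∀ j, n j ∈ J := fun j => J.orderEmbOfFin_mem hr'.symm j
  set C0 : ℕ := 2 + ∑ i ∈ range r, 8 * mm n i + (dd n Q).natAbs with hC0
  have hC : ∀ i < r, 8 * mm n i ≤ C0 := by
    intro i hi
    have : 8 * mm n i ≤ ∑ i ∈ range r, 8 * mm n i :=
      single_le_sum (f := fun i => 8 * mm n i) (fun _ _ => Nat.zero_le _) (mem_range.mpr hi)
    omega
  set E : ℕ := ex r C0 * (u - v) + (6 * C0 + 1) * r * u with hE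
  refine ⟨W * #Q ^ u + E, ?_⟩
  intro D a A B K hD hK hA hB1 hB3
  have hprod : ∏ j : Fin r, #((B (n j)).image fun n : ℕ => (n : ℤ)) = ∏ j ∈ J, #(B j) := by
    have h1 : Finset.univ.image n = J := by
      apply eq_of_subset_of_card_le
      · intro x hx
        obtain ⟨j, -, rfl⟩ := mem_image.mp hx
        exact hnJ j
      · rw [card_image_of_injective _ hn, card_univ, Fintype.card_fin, hr']
    conv_rhs => rw [← h1]
    rw [prod_image (fun x _ y _ h => hn h)]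
    exact prod_congr rfl fun j _ => card_image_cast _
  have h1 := main_int hr hn (B := fun j => (B (n j)).image fun n : ℕ => (n : ℤ)) (K := K)
    (by
      intro j
      obtain ⟨d, hd⟩ := hD
      exact ⟨_, mem_image_of_mem _ (hB1 _ (hnJ j) d hd)⟩)
    (by
      intro j
      rw [card_image_add, card_image_cast]
      exact hB3 _ (hnJ j))
    Q (by
      intro q hq j h
      exact (Finset.disjoint_left.mp hJQ) (hnJ j) (h ▸ hq))
    C0 (by omega) hC (by omega) (graph D a) (graph_inj D a)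
    (by
      rw [← card_pos, card_graph]
      exact card_pos.mpr hD)
    (by
      intro g hg j
      rw [graph, mem_image] at hg
      obtain ⟨d, hd, rfl⟩ := hg
      exact mem_image.mpr ⟨_, hB1 _ (hnJ j) d hd, by push_cast; rfl⟩)
    (A.image fun n : ℕ => (n : ℤ))
    (by
      intro g hg q hq
      rw [graph, mem_image] at hg
      obtain ⟨d, hd, rfl⟩ := hg
      exact mem_image.mpr ⟨_, hA d hd q hq, by push_cast; rfl⟩)
    u v W (by omega) hvu (fun G' hG' A' hA' => free_graph hW D a G' hG' A' hA')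
  rw [card_graph, hprod, card_image_cast] at h1
  rw [← hr']
  refine h1.trans ?_
  apply Nat.mul_le_mul_right
  apply Nat.mul_le_mul_right
  apply Nat.mul_le_mul
  · omega
  · exact Nat.pow_le_pow_right hK (by omega)

/-- The balanced case. -/
theorem MixedBound.admissible {J Q : Finset ℕ} {u v : ℕ} (h : MixedBound J Q u v) :
    MixedAdmissible J Q (u + #J * (u - v)) (u + (#J - 1) * (u - v)) := by
  classical
  obtain ⟨C, hC⟩ := h
  refine ⟨C + #J * (u - v), ?_⟩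
  intro D a A K hD hK hA hS
  have hS' : ∀ j : ℕ, ∃ B : Finset ℕ, j ∈ J → (∀ d ∈ D, a d + j * d ∈ B) ∧ #B ≤ K * #A ∧
      #(B + B) ≤ K * #B := by
    intro j
    by_cases hj : j ∈ J
    · obtain ⟨B, hB⟩ := hS j hj
      exact ⟨B, fun _ => hB⟩
    · exact ⟨∅, fun h => absurd h hj⟩
  choose B hB using hS'
  have h1 := hC D a A B K hD hK hA (fun j hj => (hB j hj).1) (fun j hj => (hB j hj).2.2)
  have h2 : ∏ j ∈ J, #(B j) ≤ (K * #A) ^ #J := by
    rw [← prod_const]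
    exact prod_le_prod' fun j hj => (hB j hj).2.1
  refine h1.trans ?_
  calc C * K ^ C * (∏ j ∈ J, #(B j)) ^ (u - v) * #A ^ u
      ≤ C * K ^ C * ((K * #A) ^ #J) ^ (u - v) * #A ^ u := by gcongr
    _ = C * K ^ (C + #J * (u - v)) * #A ^ (u + #J * (u - v)) := by
        rw [← pow_mul, mul_pow, pow_add K, pow_add (#A)]
        ring
    _ ≤ _ := by
        apply Nat.mul_le_mul_right
        exact Nat.mul_le_mul_right _ (Nat.le_add_right _ _)

/-- Two free slopes: the exponent `2`. -/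
lemma admissible_two {Q : Finset ℕ} (hQ : 1 < #Q) : Admissible Q 2 1 := by
  obtain ⟨p, hp, q, hq, hpq⟩ := one_lt_card.mp hQ
  refine ⟨1, fun D a A hA => ?_⟩
  rw [pow_one, one_mul, pow_two, ← card_product]
  apply card_le_card_of_injOn (fun d => (a d + p * d, a d + q * d))
  · intro d hd
    rw [mem_coe, mem_product]
    exact ⟨hA d hd p hp, hA d hd q hq⟩
  · intro d _ e _ h
    simp only [Prod.mk.injEq] at h
    have h1 : (a d : ℤ) + p * d = a e + p * e := by exact_mod_cast h.1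
    have h2 : (a d : ℤ) + q * d = a e + q * e := by exact_mod_cast h.2
    have h3 : ((p : ℤ) - q) * ((d : ℤ) - e) = 0 := by linear_combination h1 - h2
    rcases mul_eq_zero.mp h3 with h4 | h4
    · exact absurd (by exact_mod_cast (sub_eq_zero.mp h4)) hpq
    · exact_mod_cast (sub_eq_zero.mp h4)

end Pool.Agent.H43.AP
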