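import Mathlib

/-!
# Iterated difference sets of a set with small doubling
-/

namespace Pool.Agent.H43.AP

open Finset
open scoped Pointwise

/-- `c B - c B`. -/
def SS (B : Finset ℤ) (c : ℕ) : Finset ℤ := c • B - c • B

variable {B : Finset ℤ} {c c' : ℕ} {x y : ℤ}

lemma card_nsmul_sub_le (hB : B.Nonempty) {K : ℕ} (h : #(B + B) ≤ K * #B) (m n : ℕ) :
    #(m • B - n • B) ≤ K ^ (m + n) * #B := by
  have h1 := pluennecke_ruzsa_inequality_nsmul_sub_nsmul_add hB B m n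
  have h2 : (#(B + B) / #B : ℚ≥0) ≤ K := by
    have : (0 : ℚ≥0) < #B := by exact_mod_cast card_pos.mpr hB
    rw [div_le_iff₀ this]
    exact_mod_cast h
  have h3 : (#(m • B - n • B) : ℚ≥0) ≤ (K : ℚ≥0) ^ (m + n) * #B :=
    h1.trans (mul_le_mul_of_nonneg_right (pow_le_pow_left₀ zero_le h2 _) zero_le)
  exact_mod_cast h3

lemma SS_card (hB : B.Nonempty) {K : ℕ} (h : #(B + B) ≤ K * #B) (c : ℕ) :
    #(SS B c) ≤ K ^ (2 * c) * #B := by
  have := card_nsmul_sub_le hB h c c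
  rwa [← two_mul] at this

lemma SS_neg (hx : x ∈ SS B c) : -x ∈ SS B c := by
  rw [SS, mem_sub] at hx ⊢
  obtain ⟨a, ha, b, hb, rfl⟩ := hx
  exact ⟨b, hb, a, ha, by ring⟩

lemma SS_add (hx : x ∈ SS B c) (hy : y ∈ SS B c') : x + y ∈ SS B (c + c') := by
  rw [SS, mem_sub] at hx hy ⊢
  obtain ⟨a, ha, b, hb, rfl⟩ := hx
  obtain ⟨a', ha', b', hb', rfl⟩ := hy
  refine ⟨a + a', ?_, b + b', ?_, by ring⟩
  · rw [add_nsmul]; exact add_mem_add ha ha'
  · rw [add_nsmul]; exact add_mem_add hb hb'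

lemma SS_sub (hx : x ∈ SS B c) (hy : y ∈ SS B c') : x - y ∈ SS B (c + c') := by
  rw [sub_eq_add_neg]
  exact SS_add hx (SS_neg hy)

lemma zero_mem_SS (hB : B.Nonempty) (c : ℕ) : (0 : ℤ) ∈ SS B c := by
  rw [SS, mem_sub]
  obtain ⟨b, hb⟩ := hB
  exact ⟨c • b, nsmul_mem_nsmul hb, c • b, nsmul_mem_nsmul hb, by ring⟩

lemma SS_mono (hB : B.Nonempty) (h : c ≤ c') (hx : x ∈ SS B c) : x ∈ SS B c' := by
  have := SS_add hx (zero_mem_SS hB (c' - c))
  rwa [add_zero, Nat.add_sub_cancel' h] at this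

lemma SS_nat (hB : B.Nonempty) (m : ℕ) (hx : x ∈ SS B c) : (m : ℤ) * x ∈ SS B (m * c) := by
  induction m with
  | zero => simpa using zero_mem_SS hB 0
  | succ m ih =>
    have := SS_add ih hx
    have h1 : ((m + 1 : ℕ) : ℤ) * x = (m : ℤ) * x + x := by push_cast; ring
    have h2 : (m + 1) * c = m * c + c := by ring
    rw [h1, h2]
    exact this

lemma SS_int (hB : B.Nonempty) (z : ℤ) (hx : x ∈ SS B c) : z * x ∈ SS B (z.natAbs * c) := by
  have h := SS_nat hB z.natAbs hx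
  rcases Int.natAbs_eq z with h1 | h1
  · rw [← h1] at h; exact h
  · have h2 : (z.natAbs : ℤ) * x = -(z * x) := by
      have : z * x = -((z.natAbs : ℤ)) * x := by rw [← h1]
      rw [this]; ring
    rw [h2] at h
    simpa using SS_neg h

lemma mem_SS_one {b b' : ℤ} (hb : b ∈ B) (hb' : b' ∈ B) : b - b' ∈ SS B 1 := by
  rw [SS, one_nsmul]
  exact sub_mem_sub hb hb'

lemma covering (hB : B.Nonempty) {K : ℕ} (h : #(B + B) ≤ K * #B) (c : ℕ) :
    ∃ F : Finset ℤ, #F ≤ K ^ (2 * c + 1) ∧ ∀ x ∈ SS B c, ∃ t ∈ F, x - t ∈ SS B 1 := by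
  have h1 : #(SS B c + B) ≤ K ^ (2 * c + 1) * #B := by
    have h2 : SS B c + B = (c + 1) • B - c • B := by
      rw [SS, succ_nsmul, sub_eq_add_neg, sub_eq_add_neg, add_right_comm]
    rw [h2]
    have := card_nsmul_sub_le hB h (c + 1) c
    have h3 : c + 1 + c = 2 * c + 1 := by ring
    rwa [h3] at this
  obtain ⟨F, -, hF, hsub⟩ := ruzsa_covering_add (K := (K ^ (2 * c + 1) : ℕ)) hB
    (by exact_mod_cast h1)
  refine ⟨F, by exact_mod_cast hF, ?_⟩
  intro x hx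
  have h4 := hsub hx
  rw [mem_add] at h4
  obtain ⟨t, ht, z, hz, rfl⟩ := h4
  refine ⟨t, ht, ?_⟩
  rw [SS, one_nsmul]
  simpa using hz

end Pool.Agent.H43.AP
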